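import Mathlib

/-!
# Uniform boundedness for 100% of the endomorphisms of `P^N` (MP_13bc7b_nt): statements, Mathlib only

Densities of sets of integer vectors, a Hilbert irreducibility theorem for integral points, the
transfer to generic points by ultraproducts, and facts about `p`-adic fields.
-/

set_option autoImplicit false

namespace Pool.Agent.W275.UB

open MvPolynomial

/-- upper density at most `ε` -/
def UD {ι : Type} [Fintype ι] (ε : ℝ) (S : Set (ι → ℤ)) : Prop :=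
  ∃ H₀ : ℕ, ∀ H : ℕ, H₀ ≤ H →
    (({v | v ∈ S ∧ ∀ i, |v i| ≤ (H : ℤ)} : Set (ι → ℤ)).ncard : ℝ) ≤
      ε * (2 * H + 1 : ℝ) ^ Fintype.card ι

/-- a polynomial is rarely divisible by a high power of `p` -/
def S_dens : Prop := ∀ (ι : Type) [Fintype ι] (c : MvPolynomial ι ℤ), c ≠ 0 → ∀ p : ℕ, p.Prime →
  ∀ ε : ℝ, 0 < ε → ∃ V : ℕ, UD ε {v : ι → ℤ | (p : ℤ) ^ (V + 1) ∣ eval v c}

/-- a polynomial is rarely divisible by a large prime `p` -/
def S_densp : Prop := ∀ (ι : Type) [Fintype ι] (c : MvPolynomial ι ℤ), c ≠ 0 → ∀ ε : ℝ, 0 < ε →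
  ∃ P₀ : ℕ, ∀ p : ℕ, p.Prime → P₀ ≤ p → UD ε {v : ι → ℤ | (p : ℤ) ∣ eval v c}

/-! ### Hilbert irreducibility for integral roots of monic polynomials -/

/-- a monic polynomial over `ℤ[X_ι]` without root in `ℚ[X_ι]` rarely has an integral root -/
def S_hit : Prop := ∀ (ι : Type) [Fintype ι] (P A B : Polynomial (MvPolynomial ι ℤ))
  (Δ : MvPolynomial ι ℤ), P.Monic → Δ ≠ 0 →
  A * P + B * Polynomial.derivative P = Polynomial.C Δ →
  (∀ S : MvPolynomial ι ℚ, (P.map (MvPolynomial.map (Int.castRingHom ℚ))).eval S ≠ 0) →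
  ∀ ε : ℝ, 0 < ε → UD ε {v : ι → ℤ | ∃ T : ℤ, (P.map (eval v)).eval T = 0}

/-- Newton's method: a simple root modulo the variables lifts to a Taylor polynomial -/
def S_newton : Prop := ∀ (R ι : Type) [CommRing R] [Fintype ι] (P : Polynomial (MvPolynomial ι R))
  (τ : R), (P.map constantCoeff).eval τ = 0 →
  IsUnit (((Polynomial.derivative P).map constantCoeff).eval τ) →
  ∀ k : ℕ, ∃ q : MvPolynomial ι R, constantCoeff q = τ ∧ q.totalDegree ≤ k ∧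
    ∀ μ : ι →₀ ℕ, μ.degree ≤ k → coeff μ (P.eval q) = 0

/-- uniqueness of roots near a simple root -/
def S_uniq : Prop := ∀ (R : Type) [CommRing R] (P : Polynomial R) (y z : R),
  IsNilpotent (y - z) → P.eval y = 0 → P.eval z = 0 → IsUnit (P.derivative.eval y) → y = z

/-- the integral roots at the points `a + p ^ N t`, `t ∈ Θ`, satisfy modulo `p ^ (N (k + 1))` the
linear relations of the polynomials of degree at most `k` -/
def S_rel : Prop := ∀ (ι : Type) [Fintype ι] (P : Polynomial (MvPolynomial ι ℤ)) (p N k : ℕ),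
  p.Prime → 1 ≤ N → ∀ (a : ι → ℤ) (Θ : Finset (ι → ℤ)) (T l : (ι → ℤ) → ℤ),
  (∀ t ∈ Θ, (P.map (eval fun i => a i + (p : ℤ) ^ N * t i)).eval (T t) = 0) →
  (∀ t ∈ Θ, ¬ (p : ℤ) ∣ ((Polynomial.derivative P).map
    (eval fun i => a i + (p : ℤ) ^ N * t i)).eval (T t)) →
  (∀ t ∈ Θ, ∀ t' ∈ Θ, (p : ℤ) ∣ T t - T t') →
  (∀ μ : ι →₀ ℕ, μ.degree ≤ k → ∑ t ∈ Θ, l t * ∏ i, t i ^ μ i = 0) →
  (p : ℤ) ^ (N * (k + 1)) ∣ ∑ t ∈ Θ, l t * T t

/-- finitely many relations characterise the restrictions of the polynomials of degree at most `k` -/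
def S_interp : Prop := ∀ (ι : Type) [Fintype ι] (k : ℕ) (Θ : Finset (ι → ℤ)),
  ∃ Λ : Finset ((ι → ℤ) → ℤ),
    (∀ l ∈ Λ, ∀ μ : ι →₀ ℕ, μ.degree ≤ k → ∑ t ∈ Θ, l t * ∏ i, t i ^ μ i = 0) ∧
    ∀ T : (ι → ℤ) → ℤ, (∀ l ∈ Λ, ∑ t ∈ Θ, l t * T t = 0) →
      ∃ Q : MvPolynomial ι ℚ, Q.totalDegree ≤ k ∧ ∀ t ∈ Θ, eval (fun i => (t i : ℚ)) Q = T t

/-- the polynomial `P` along `a + w X` -/
noncomputable def lineP {ι : Type} (P : Polynomial (MvPolynomial ι ℤ)) (a : ι → ℤ) (w : ℤ) :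
    Polynomial (MvPolynomial ι ℚ) :=
  P.map (eval₂Hom (Int.castRingHom (MvPolynomial ι ℚ)) fun i => C (a i : ℚ) + C (w : ℚ) * X i)

/-- many integral roots on a polynomial in a grid give a polynomial root -/
def S_sz : Prop := ∀ (ι : Type) [Fintype ι] (P : Polynomial (MvPolynomial ι ℤ)) (k : ℕ),
  ∃ E : ℕ, ∀ (L : ℕ) (a : ι → ℤ) (w : ℤ) (Θ : Finset (ι → ℤ)) (T : (ι → ℤ) → ℤ)
    (Q : MvPolynomial ι ℚ), w ≠ 0 → Q.totalDegree ≤ k →
    (∀ t ∈ Θ, ∀ i, 0 ≤ t i ∧ t i < L) → E * L ^ (Fintype.card ι) < Θ.card * L →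
    (∀ t ∈ Θ, (P.map (eval fun i => a i + w * t i)).eval (T t) = 0) →
    (∀ t ∈ Θ, eval (fun i => (t i : ℚ)) Q = T t) →
    ∃ S : MvPolynomial ι ℚ, (P.map (MvPolynomial.map (Int.castRingHom ℚ))).eval S = 0

/-- a dense set contains many points of some window with step `q` -/
def S_win : Prop := ∀ (ι : Type) [Fintype ι] (δ : ℝ) (H q L : ℕ) (S : Finset (ι → ℤ)),
  0 < q → q * L ≤ 2 * H + 1 → (∀ v ∈ S, ∀ i, |v i| ≤ (H : ℤ)) →
  δ * (2 * H + 1 : ℝ) ^ Fintype.card ι ≤ (S.card : ℝ) →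
  ∃ (a : ι → ℤ) (Θ : Finset (ι → ℤ)), (∀ t ∈ Θ, ∀ i, 0 ≤ t i ∧ t i < L) ∧
    (∀ t ∈ Θ, (fun i => a i + (q : ℤ) * t i) ∈ S) ∧
    δ * (L / 2 : ℝ) ^ Fintype.card ι ≤ (Θ.card : ℝ)

/-- integral roots are bounded polynomially -/
def S_root : Prop := ∀ (ι : Type) [Fintype ι] (P : Polynomial (MvPolynomial ι ℤ)), P.Monic →
  ∃ C K : ℕ, ∀ (H : ℕ) (v : ι → ℤ) (T : ℤ), 1 ≤ H → (∀ i, |v i| ≤ (H : ℤ)) →
    (P.map (eval v)).eval T = 0 → |T| ≤ (C * H ^ K : ℕ)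

/-! ### Transfer to the generic point -/

/-- the ultrafilter does not contain sets of density zero -/
def Gen {ι : Type} [Fintype ι] (U : Ultrafilter (ι → ℤ)) : Prop :=
  ∀ S : Set (ι → ℤ), (∀ ε : ℝ, 0 < ε → UD ε S) → Sᶜ ∈ U

/-- a set of positive upper density belongs to such an ultrafilter -/
def S_exu : Prop := ∀ (ι : Type) [Fintype ι] (S : Set (ι → ℤ)), ¬ (∀ ε : ℝ, 0 < ε → UD ε S) →
  ∃ U : Ultrafilter (ι → ℤ), Gen U ∧ S ∈ U

/-- `ℚ(X_ι)` is relatively algebraically closed in the ultrapower -/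
def S_urel : Prop := ∀ (ι : Type) [Fintype ι] (U : Ultrafilter (ι → ℤ)), Gen U →
  ∀ (T : (ι → ℤ) → ℚ) (G : Polynomial (MvPolynomial ι ℤ)), G ≠ 0 →
  (∀ᶠ v in (U : Filter (ι → ℤ)),
    (G.map ((Int.castRingHom ℚ).comp (eval v))).eval (T v) = 0) →
  ∃ a b : MvPolynomial ι ℤ, b ≠ 0 ∧
    ∀ᶠ v in (U : Filter (ι → ℤ)), ((eval v b : ℤ) : ℚ) * T v = ((eval v a : ℤ) : ℚ)

/-- the field of rational functions -/
abbrev EE (ι : Type) : Type := FractionRing (MvPolynomial ι ℤ)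

/-- the generic coefficients in an extension of the field of rational functions -/
noncomputable def gn (ι Ω : Type) [Field Ω] [Algebra (EE ι) Ω] : MvPolynomial ι ℤ →+* Ω :=
  (algebraMap (EE ι) Ω).comp (algebraMap (MvPolynomial ι ℤ) (EE ι))

/-- if for a set of positive upper density of specialisations there is a point of degree at most `D`,
then there is one over the field of rational functions -/
def S_gen : Prop := ∀ (ι : Type) [Fintype ι] (n D : ℕ)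
  (G : Set (MvPolynomial (Fin n) (MvPolynomial ι ℤ))) (h : MvPolynomial (Fin n) (MvPolynomial ι ℤ)),
  (∀ (Ω : Type) [Field Ω] [IsAlgClosed Ω] [Algebra (EE ι) Ω] (x : Fin n → Ω),
    (∀ g ∈ G, eval₂ (gn ι Ω) x g = 0) → ∀ j, IsAlgebraic (EE ι) (x j)) →
  ¬ (∀ ε : ℝ, 0 < ε → UD ε {v : ι → ℤ |
    ∃ (K : Type) (_ : Field K) (_ : NumberField K) (x : Fin n → K), Module.finrank ℚ K ≤ D ∧
      (∀ g ∈ G, eval₂ ((Int.castRingHom K).comp (eval v)) x g = 0) ∧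
      eval₂ ((Int.castRingHom K).comp (eval v)) x h ≠ 0}) →
  ∃ (L : Type) (_ : Field L) (_ : Algebra (EE ι) L) (x : Fin n → L),
    FiniteDimensional (EE ι) L ∧ Module.finrank (EE ι) L ≤ D ∧
    (∀ g ∈ G, eval₂ (gn ι L) x g = 0) ∧ eval₂ (gn ι L) x h ≠ 0

/-- finitely many solutions are algebraic -/
def S_fin : Prop := ∀ (E Ω : Type) [Field E] [Field Ω] [IsAlgClosed Ω] [Algebra E Ω] (n C : ℕ)
  (G : Set (MvPolynomial (Fin n) E)),
  (∀ X : Finset (Fin n → Ω), (∀ x ∈ X, ∀ g ∈ G, aeval x g = 0) → X.card ≤ C) →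
  ∀ x : Fin n → Ω, (∀ g ∈ G, aeval x g = 0) → ∀ j, IsAlgebraic E (x j)

/-! ### `p`-adic fields -/

/-- generic `p`-adic integers -/
def S_theta : Prop := ∀ (p : ℕ) [Fact p.Prime] (ι : Type) [Fintype ι] (a : ι → ℤ),
  ∃ θ : ι → ℤ_[p], (∀ i, (p : ℤ_[p]) ∣ θ i - (a i : ℤ_[p])) ∧
    ∀ c : MvPolynomial ι ℤ, c ≠ 0 → aeval θ c ≠ 0

/-- extension of an embedding to a finite extension -/
def S_tensor : Prop := ∀ (E L Q : Type) [Field E] [Field L] [Field Q] [Algebra E L]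
  [FiniteDimensional E L] (φ : E →+* Q),
  ∃ (L' : Type) (_ : Field L') (_ : Algebra Q L') (ψ : L →+* L'), FiniteDimensional Q L' ∧
    Module.finrank Q L' ≤ Module.finrank E L ∧
    ∀ x : E, ψ (algebraMap E L x) = algebraMap Q L' (φ x)

/-- a discrete valuation ring of a finite extension of `ℚ_p` -/
def S_nfp : Prop := ∀ (p : ℕ) [Fact p.Prime] (D : ℕ) (L : Type) [Field L] [Algebra ℚ_[p] L]
  [FiniteDimensional ℚ_[p] L], Module.finrank ℚ_[p] L ≤ D →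
  ∃ (A : Type) (_ : CommRing A) (_ : IsDomain A) (_ : IsDiscreteValuationRing A)
    (_ : Algebra A L) (_ : IsFractionRing A L) (π : A), Irreducible π ∧ π ∣ (p : A) ∧
    ¬ π ^ (D + 1) ∣ (p : A) ∧
    (∀ j : ℕ, Finite (A ⧸ Ideal.span {π ^ j}) ∧
      Nat.card (A ⧸ Ideal.span {π ^ j}) ≤ p ^ (D * j)) ∧
    ∀ z : ℤ_[p], ∃ y : A, algebraMap A L y = algebraMap ℚ_[p] L (z : ℚ_[p])

end Pool.Agent.W275.UB
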