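import Pool.Agent.W275.UB.Fin7

set_option autoImplicit false

/-! Assembly of project UB, coefficients in an order: boxes. -/

namespace Pool.Agent.W275.UB

open MvPolynomial Pool.Agent.H936R2 Pool.Agent.H927R2.RD H294UB

/-- systems of `N + 1` forms of degree `d` in `N + 1` variables with coefficients in `O` whose
coordinates with respect to the basis `ω` are at most `H` -/
def BoxO {O J : Type} [CommRing O] (ω : Module.Basis J ℤ O) (N d H : ℕ) :
    Set (Fin (N + 1) → MvPolynomial (Fin (N + 1)) O) :=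
  {F | ∀ i, (F i).IsHomogeneous d ∧ ∀ μ j, |ω.repr (coeff μ (F i)) j| ≤ (H : ℤ)}

section

variable {O J : Type} [CommRing O] [Fintype J] (ω : Module.Basis J ℤ O) {N d : ℕ}

/-- the system with coordinates `w` -/
noncomputable def Ph (w : Idx (N + 1) d × J → ℤ) : Fin (N + 1) → MvPolynomial (Fin (N + 1)) O :=
  sy (cv ω fun q => (w q : O))

lemma repr_cv (w : Idx (N + 1) d × J → ℤ) (i : Idx (N + 1) d) (j : J) :
    ω.repr (cv ω (fun q => (w q : O)) i) j = w (i, j) := by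
  have h : cv ω (fun q => (w q : O)) i = ∑ j, w (i, j) • ω j := by
    simp only [cv, zsmul_eq_mul]
    apply Finset.sum_congr rfl
    intro j _
    ring
  rw [h, ω.repr_sum_self]

lemma Ph_inj : Function.Injective (Ph (N := N) (d := d) ω) := by
  intro w w' h
  funext q
  obtain ⟨⟨i, κ⟩, j⟩ := q
  have h1 := congrFun h i
  have h2 := congrArg (coeff (expo κ)) h1
  simp only [Ph, sy, sys] at h2
  rw [coeff_form, coeff_form] at h2
  rw [← repr_cv ω w (i, κ) j, ← repr_cv ω w' (i, κ) j, h2]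

lemma box_image (H : ℕ) (P : (Fin (N + 1) → MvPolynomial (Fin (N + 1)) O) → Prop) :
    {F | F ∈ BoxO ω N d H ∧ P F} =
      Ph (N := N) (d := d) ω '' {w | (∀ q, |w q| ≤ (H : ℤ)) ∧ P (Ph ω w)} := by
  ext F
  constructor
  · rintro ⟨hF, hP⟩
    have h : Ph ω (fun q : Idx (N + 1) d × J => ω.repr (coeff (expo q.1.2) (F q.1.1)) q.2) = F := by
      funext i
      have h1 : ∀ κ : Mono (N + 1) d, cv ω (fun q : Idx (N + 1) d × J =>
          ((ω.repr (coeff (expo q.1.2) (F q.1.1)) q.2 : ℤ) : O)) (i, κ) =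
          coeff (expo κ) (F i) := by
        intro κ
        have h2 := ω.sum_repr (coeff (expo κ) (F i))
        rw [← h2]
        simp only [cv, zsmul_eq_mul]
        apply Finset.sum_congr rfl
        intro j _
        ring
      simp only [Ph, sy, sys, h1]
      exact form_coeff (hF i).1
    refine ⟨_, ⟨fun q => (hF q.1.1).2 _ _, ?_⟩, h⟩
    rw [h]
    exact hP
  · rintro ⟨w, ⟨hw, hP⟩, rfl⟩
    refine ⟨fun i => ⟨sy_hom _ i, fun μ j => ?_⟩, hP⟩
    by_cases h : μ.degree = d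
    · obtain ⟨κ, rfl⟩ := exists_expo μ h
      simp only [Ph, sy, sys]
      rw [coeff_form, repr_cv]
      exact hw _
    · simp only [Ph, sy, sys]
      rw [coeff_form_of_ne _ _ h, map_zero, Finsupp.zero_apply, abs_zero]
      positivity

lemma ncard_box_P (H : ℕ) (P : (Fin (N + 1) → MvPolynomial (Fin (N + 1)) O) → Prop) :
    ({F | F ∈ BoxO ω N d H ∧ P F} : Set (Fin (N + 1) → MvPolynomial (Fin (N + 1)) O)).ncard =
      ({w | (∀ q, |w q| ≤ (H : ℤ)) ∧ P (Ph ω w)} : Set (Idx (N + 1) d × J → ℤ)).ncard := by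
  rw [box_image]
  exact Set.ncard_image_of_injective _ (Ph_inj ω)

open Filter Topology in
theorem ratioO (P : (Fin (N + 1) → MvPolynomial (Fin (N + 1)) O) → Prop)
    (h : D0 {w : Idx (N + 1) d × J → ℤ | ¬ P (Ph ω w)}) :
    Tendsto (fun H : ℕ => (({F | F ∈ BoxO ω N d H ∧ P F} :
      Set (Fin (N + 1) → MvPolynomial (Fin (N + 1)) O)).ncard : ℝ) /
      ((BoxO ω N d H).ncard : ℝ)) atTop (𝓝 1) := by
  classical
  have h2 : ∀ H : ℕ, ({v | ∀ i, |v i| ≤ (H : ℤ)} : Set (Idx (N + 1) d × J → ℤ)).ncard =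
      (2 * H + 1) ^ Fintype.card (Idx (N + 1) d × J) := by
    intro H
    rw [← card_box_vectors, ← Nat.card_coe_set_eq]
    rfl
  have hcount : ∀ H : ℕ, (({F | F ∈ BoxO ω N d H ∧ P F} :
      Set (Fin (N + 1) → MvPolynomial (Fin (N + 1)) O)).ncard : ℝ) =
      (2 * H + 1 : ℝ) ^ Fintype.card (Idx (N + 1) d × J) -
      (({v | v ∈ {v : Idx (N + 1) d × J → ℤ | ¬ P (Ph ω v)} ∧ ∀ i, |v i| ≤ (H : ℤ)} :
        Set (Idx (N + 1) d × J → ℤ)).ncard : ℝ) := by
    intro H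
    have h1 := ncard_box_P (N := N) (d := d) ω H P
    have h3 : ({v | ∀ i, |v i| ≤ (H : ℤ)} : Set (Idx (N + 1) d × J → ℤ)) =
        {v | (∀ i, |v i| ≤ (H : ℤ)) ∧ P (Ph ω v)} ∪
        {v | v ∈ {v : Idx (N + 1) d × J → ℤ | ¬ P (Ph ω v)} ∧ ∀ i, |v i| ≤ (H : ℤ)} := by
      ext v
      simp only [Set.mem_union, Set.mem_setOf_eq]
      tauto
    have hfin1 : ({v | ∀ i, |v i| ≤ (H : ℤ)} : Set (Idx (N + 1) d × J → ℤ)).Finite := by
      have := box_fin (Set.univ : Set (Idx (N + 1) d × J → ℤ)) H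
      simpa using this
    have h4 : ({v | ∀ i, |v i| ≤ (H : ℤ)} : Set (Idx (N + 1) d × J → ℤ)).ncard =
        ({v | (∀ i, |v i| ≤ (H : ℤ)) ∧ P (Ph ω v)} : Set (Idx (N + 1) d × J → ℤ)).ncard +
        ({v | v ∈ {v : Idx (N + 1) d × J → ℤ | ¬ P (Ph ω v)} ∧ ∀ i, |v i| ≤ (H : ℤ)} :
        Set (Idx (N + 1) d × J → ℤ)).ncard := by
      rw [h3]
      apply Set.ncard_union_eq
      · rw [Set.disjoint_left]
        rintro v ⟨_, hv⟩ ⟨hv', _⟩
        exact hv' hv
      · exact hfin1.subset fun v hv => hv.1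
      · exact hfin1.subset fun v hv => hv.2
    have h5 : (({v | (∀ i, |v i| ≤ (H : ℤ)) ∧ P (Ph ω v)} :
        Set (Idx (N + 1) d × J → ℤ)).ncard : ℝ) +
        (({v | v ∈ {v : Idx (N + 1) d × J → ℤ | ¬ P (Ph ω v)} ∧ ∀ i, |v i| ≤ (H : ℤ)} :
        Set (Idx (N + 1) d × J → ℤ)).ncard : ℝ) =
        (2 * H + 1 : ℝ) ^ Fintype.card (Idx (N + 1) d × J) := by
      have h6 := h4.symm.trans (h2 H)
      exact_mod_cast h6
    rw [h1]
    linarith
  have hbox : ∀ H : ℕ, ((BoxO ω N d H).ncard : ℝ) =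
      (2 * H + 1 : ℝ) ^ Fintype.card (Idx (N + 1) d × J) := by
    intro H
    have h1 := ncard_box_P (N := N) (d := d) ω H fun _ => True
    simp only [and_true] at h1
    have h3 : ({F | F ∈ BoxO ω N d H} : Set (Fin (N + 1) → MvPolynomial (Fin (N + 1)) O)) =
      BoxO ω N d H := rfl
    rw [h3] at h1
    rw [h1, h2]
    push_cast
    ring
  rw [Metric.tendsto_atTop]
  intro ε hε
  obtain ⟨H₀, hH₀⟩ := h (ε / 2) (by positivity)
  refine ⟨H₀, fun H hH => ?_⟩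
  have h1 := hH₀ H hH
  have hpos : (0 : ℝ) < (2 * H + 1 : ℝ) ^ Fintype.card (Idx (N + 1) d × J) := by positivity
  rw [hcount, hbox, sub_div, div_self hpos.ne', Real.dist_eq]
  have h2 : (0 : ℝ) ≤ (({v | v ∈ {v : Idx (N + 1) d × J → ℤ | ¬ P (Ph ω v)} ∧
      ∀ i, |v i| ≤ (H : ℤ)} : Set (Idx (N + 1) d × J → ℤ)).ncard : ℝ) /
      (2 * H + 1 : ℝ) ^ Fintype.card (Idx (N + 1) d × J) := by positivity
  have h3 : (({v | v ∈ {v : Idx (N + 1) d × J → ℤ | ¬ P (Ph ω v)} ∧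
      ∀ i, |v i| ≤ (H : ℤ)} : Set (Idx (N + 1) d × J → ℤ)).ncard : ℝ) /
      (2 * H + 1 : ℝ) ^ Fintype.card (Idx (N + 1) d × J) ≤ ε / 2 := by
    rw [div_le_iff₀ hpos]
    exact h1
  rw [abs_lt]
  constructor <;> linarith

end

end Pool.Agent.W275.UB
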