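import Mathlib
import Pool.Agent.H294UB.Stmts
import Pool.Agent.W275.UB.Den

/-!
# Uniform boundedness for 100% of the endomorphisms of `P^N` (MP_13bc7b_nt): statements

Part A: discrete valuation rings (periods and tails).
Part B: the Macaulay polynomial `c₁` and the critical polynomial `c₂`.
-/

set_option autoImplicit false

namespace Pool.Agent.W275.UB

open MvPolynomial Pool.Agent.H936R2 Pool.Agent.H927R2.RD H294UB

/-- the system of forms of degree `d` with coefficient vector `v` -/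
noncomputable def sy {R : Type} [CommRing R] {n d : ℕ} (v : Idx n d → R) :
    Fin n → MvPolynomial (Fin n) R := sys fun i κ => v (i, κ)

/-- the iterates of a polynomial map, as polynomial maps -/
noncomputable def itr {R : Type} [CommRing R] {n : ℕ} (P : Fin n → MvPolynomial (Fin n) R) :
    ℕ → Fin n → MvPolynomial (Fin n) R
  | 0 => fun i => X i
  | k + 1 => fun i => bind₁ (itr P k) (P i)

/-- the Jacobian matrices of the iterates (chain rule) -/
noncomputable def jk {R : Type} [CommRing R] {n : ℕ} (P : Fin n → MvPolynomial (Fin n) R) :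
    ℕ → (Fin n → R) → Matrix (Fin n) (Fin n) R
  | 0, _ => 1
  | k + 1, z => jac P ((pt P)^[k] z) * jk P k z

/-- good reduction: primitive vectors are mapped to primitive vectors -/
def Good {A : Type} [CommRing A] {n : ℕ} (P : Fin n → MvPolynomial (Fin n) A) : Prop :=
  ∀ x : Fin n → A, Prim x → Prim (pt P x)

/-- periodic as a point of projective space -/
def Per {A : Type} [CommRing A] {n : ℕ} (P : Fin n → MvPolynomial (Fin n) A)
    (x : Fin n → A) : Prop :=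
  ∃ m : ℕ, 0 < m ∧ ∃ c : A, (pt P)^[m] x = c • x

/-! ### Part A -/

/-- iterates as polynomial maps -/
def S_itr : Prop := ∀ (R : Type) [CommRing R] (n d : ℕ) (P : Fin n → MvPolynomial (Fin n) R),
  (∀ k z, pt (itr P k) z = (pt P)^[k] z) ∧ (∀ k z, jac (itr P k) z = jk P k z) ∧
  ((∀ i, (P i).IsHomogeneous d) → ∀ k i, (itr P k i).IsHomogeneous (d ^ k)) ∧
  (∀ (R' : Type) [CommRing R'] (φ : R →+* R') (k : ℕ) (i : Fin n),
    map φ (itr P k i) = itr (fun i => map φ (P i)) k i)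

/-- homogeneity, Euler's formula and Taylor's formula -/
def S_eul : Prop := ∀ (R : Type) [CommRing R] (n d : ℕ) (P : Fin n → MvPolynomial (Fin n) R),
  (∀ i, (P i).IsHomogeneous d) →
  (∀ (c : R) (x : Fin n → R), pt P (c • x) = c ^ d • pt P x) ∧
  (∀ (c : R) (x : Fin n → R), c • jac P (c • x) = c ^ d • jac P x) ∧
  (∀ x : Fin n → R, (jac P x).mulVec x = (d : R) • pt P x) ∧
  (∀ (t : R) (x u : Fin n → R), ∃ w : Fin n → R,
    pt P (x + t • u) = pt P x + t • (jac P x).mulVec u + t ^ 2 • w)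

/-- idempotent powers in a finite monoid -/
def S_mon : Prop := ∀ (M : Type) [Monoid M] [Finite M] (w : ℕ), Nat.card M ≤ w →
  ∀ a : M, a ^ w.factorial * a ^ w.factorial = a ^ w.factorial

/-- some iterate fixes the reduction of a periodic point, and its derivative there is idempotent -/
def S_red : Prop := ∀ p D n : ℕ, p.Prime → ∃ W : ℕ, 0 < W ∧
  ∀ (A : Type) [CommRing A] [IsDomain A] [IsDiscreteValuationRing A] (π : A), Irreducible π →
  Finite (A ⧸ Ideal.span {π}) → Nat.card (A ⧸ Ideal.span {π}) ≤ p ^ D →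
  ∀ (d : ℕ) (P : Fin n → MvPolynomial (Fin n) A), (∀ i, (P i).IsHomogeneous d) → Good P →
  ∀ x : Fin n → A, Prim x → Per P x →
  ∃ l : A, IsUnit l ∧ Cong π 1 ((pt P)^[W] x) (l • x) ∧
    ∀ i j, π ∣ (jk P W x * jk P W x) i j - l * (jk P W x) i j

/-- a periodic point whose reduction is fixed and whose derivative there is idempotent has period a
power of `p` -/
def S_lev : Prop :=
  ∀ (A : Type) [CommRing A] [IsDomain A] [IsDiscreteValuationRing A] (π : A), Irreducible π →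
  ∀ p : ℕ, p.Prime → π ∣ (p : A) →
  ∀ (n d : ℕ) (G : Fin n → MvPolynomial (Fin n) A), (∀ i, (G i).IsHomogeneous d) → Good G →
  ∀ (x : Fin n → A) (l : A), Prim x → IsUnit l → Cong π 1 (pt G x) (l • x) →
  (∀ i j, π ∣ (jac G x * jac G x) i j - l * jac G x i j) → Per G x →
  ∃ r : ℕ, ∃ c : A, IsUnit c ∧ (pt G)^[p ^ r] x = c • x

/-- only the fixed point itself is mapped to the fixed point, near it -/
def S_disc : Prop :=
  ∀ (A : Type) [CommRing A] [IsDomain A] [IsDiscreteValuationRing A] [CharZero A] (π : A),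
  Irreducible π → ∀ n d V : ℕ, 1 ≤ d → ∀ P : Fin n → MvPolynomial (Fin n) A,
  (∀ i, (P i).IsHomogeneous d) → ∀ (x y : Fin n → A) (c l : A), Prim x → IsUnit c →
  pt P x = c • x → ¬ π ^ (V + 1) ∣ (jac P x).det → Cong π (V + 1) y x → pt P y = l • x →
  ∃ u : A, IsUnit u ∧ y = u • x

/-- bounded tails -/
def S_tail : Prop :=
  ∀ (A : Type) [CommRing A] [IsDomain A] [IsDiscreteValuationRing A] [CharZero A] (π : A),
  Irreducible π → ∀ n d V w : ℕ, 1 ≤ d → ∀ P : Fin n → MvPolynomial (Fin n) A,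
  (∀ i, (P i).IsHomogeneous d) → Good P →
  Finite (A ⧸ Ideal.span {π ^ (V + 1)}) → Nat.card (A ⧸ Ideal.span {π ^ (V + 1)}) ^ n ≤ w →
  ∀ z : Fin n → A, Prim z → (∃ a b : ℕ, a < b ∧ ∃ c : A, (pt P)^[b] z = c • (pt P)^[a] z) →
  (∀ i : ℕ, Per P ((pt P)^[i] z) → (∃ c : A, pt P ((pt P)^[i] z) = c • (pt P)^[i] z) ∧
    ¬ π ^ (V + 1) ∣ (jac P ((pt P)^[i] z)).det) →
  ∃ c : A, IsUnit c ∧ (pt P)^[w + 1] z = c • (pt P)^[w] z

/-! ### Part B -/

/-- `c` controls the common zeros -/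
def Mac {n d : ℕ} (c : MvPolynomial (Idx n d) ℤ) (s : ℕ) : Prop :=
  ∀ (R : Type) [CommRing R] (v : Idx n d → R), IsUnit (aeval v c) → MonIn s (sy v)

/-- `c` controls the critical points of period dividing `e` -/
def Crit {n d : ℕ} (c : MvPolynomial (Idx n d) ℤ) (e s : ℕ) : Prop :=
  ∀ (R : Type) [CommRing R] (v : Idx n d → R) (x : Fin n → R) (l : R),
    (pt (sy v))^[e] x = l • x → ∀ i, (jac (sy v) x).det ∣ aeval v c * x i ^ s

def S_c1 : Prop := ∀ n d : ℕ, 1 ≤ d → ∃ (c : MvPolynomial (Idx n d) ℤ) (s : ℕ),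
  (∃ v : Idx n d → ℤ, eval v c = 1) ∧ Mac c s

def S_c2 : Prop := ∀ N d e : ℕ, 2 ≤ d → 0 < e →
  ∃ (c : MvPolynomial (Idx (N + 1) d) ℤ) (s : ℕ), c ≠ 0 ∧ Crit c e s

/-- lifting generators of the monomials -/
def S_cram : Prop := ∀ (B k J : Type) [CommRing B] [Field k] [Fintype J] (φ : B →+* k) (n s : ℕ)
  (g : J → MvPolynomial (Fin n) B) (e : J → ℕ), (∀ j, (g j).IsHomogeneous (e j)) →
  (∀ μ : Fin n →₀ ℕ, μ.degree = s →
    monomial μ (1 : k) ∈ Ideal.span (Set.range fun j => map φ (g j))) →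
  ∃ c : B, φ c ≠ 0 ∧ ∀ μ : Fin n →₀ ℕ, μ.degree = s → monomial μ c ∈ Ideal.span (Set.range g)

/-- Nullstellensatz -/
def S_nul : Prop := ∀ (k J : Type) [Field k] [IsAlgClosed k] [Fintype J] (n : ℕ)
  (g : J → MvPolynomial (Fin n) k),
  (∀ x : Fin n → k, (∀ j, eval x (g j) = 0) → x = 0) →
  ∃ s₀ : ℕ, ∀ s, s₀ ≤ s → ∀ μ : Fin n →₀ ℕ, μ.degree = s →
    monomial μ (1 : k) ∈ Ideal.span (Set.range g)

/-- a system without critical periodic points -/
def S_model : Prop := ∀ N d : ℕ, 2 ≤ d →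
  ∃ (k : Type) (_ : Field k) (_ : IsAlgClosed k) (v : Idx (N + 1) d → k),
    ∀ (e : ℕ) (x : Fin (N + 1) → k) (l : k), 0 < e → x ≠ 0 → (pt (sy v))^[e] x = l • x →
      (jac (sy v) x).det ≠ 0

/-! ### Assembly of parts A and B -/

/-- the field `K` with the coefficient vector `v` has a local model above `p` -/
def LM (p D V : ℕ) {ι : Type} (c₁ c₂ : MvPolynomial ι ℤ) (K : Type) [Field K] (v : ι → K) :
    Prop :=
  ∃ (K' : Type) (_ : Field K') (φ : K →+* K') (A : Type) (_ : CommRing A) (_ : IsDomain A)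
    (_ : IsDiscreteValuationRing A) (_ : Algebra A K') (_ : IsFractionRing A K') (π : A)
    (a : ι → A), Irreducible π ∧ π ∣ (p : A) ∧ (∀ i, algebraMap A K' (a i) = φ (v i)) ∧
    IsUnit (aeval a c₁) ∧ ¬ π ^ (V + 1) ∣ aeval a c₂ ∧
    ∀ j : ℕ, Finite (A ⧸ Ideal.span {π ^ j}) ∧ Nat.card (A ⧸ Ideal.span {π ^ j}) ≤ p ^ (D * j)

/-- all preperiodic points have bounded type, over fields with local models at two primes -/
def S_core : Prop := ∀ N d D p q : ℕ, 2 ≤ d → p.Prime → q.Prime → p ≠ q →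
  ∃ e : ℕ, 0 < e ∧ ∀ V : ℕ, ∃ b : ℕ, ∀ (c₁ c₂ : MvPolynomial (Idx (N + 1) d) ℤ) (s s₂ : ℕ),
    Mac c₁ s → Crit c₂ e s₂ → ∀ (K : Type) [Field K] [CharZero K] (v : Idx (N + 1) d → K),
    LM p D V c₁ c₂ K v → LM q D 0 c₁ 1 K v → ∀ x : Fin (N + 1) → K, x ≠ 0 →
    (∃ m n : ℕ, m < n ∧ ∃ c : K, c ≠ 0 ∧ (pt (sy v))^[n] x = c • (pt (sy v))^[m] x) →
    ∃ c : K, c ≠ 0 ∧ (pt (sy v))^[b + e] x = c • (pt (sy v))^[b] x

/-- local models for number fields -/
def S_lmn : Prop := ∀ (D p V : ℕ) (ι : Type) [Fintype ι] (c₁ c₂ : MvPolynomial ι ℤ) (K : Type)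
  [Field K] [NumberField K], Module.finrank ℚ K ≤ D → p.Prime → ∀ v : ι → ℤ,
  ¬ (p : ℤ) ∣ eval v c₁ → ¬ (p : ℤ) ^ (V + 1) ∣ eval v c₂ →
  LM p D (D * V) c₁ c₂ K (fun i => (v i : K))

/-- local models for finite extensions of the field of rational functions -/
def S_lmg : Prop := ∀ (D p : ℕ) (ι : Type) [Fintype ι] (c₁ c₂ : MvPolynomial ι ℤ), p.Prime →
  (∃ v : ι → ℤ, eval v c₁ = 1) → c₂ ≠ 0 → ∃ V : ℕ, ∀ (L : Type) [Field L] [Algebra (EE ι) L]
  [FiniteDimensional (EE ι) L], Module.finrank (EE ι) L ≤ D →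
  LM p D V c₁ c₂ L (fun i => gn ι L (X i))

/-- a cheap version of the statement: for almost all systems in the boxes the type of all
preperiodic points of degree at most `D` is bounded by a constant -/
def S_type : Prop := ∀ N d D : ℕ, 2 ≤ d → ∃ b e : ℕ, 0 < e ∧ ∀ ε : ℝ, 0 < ε →
  UD ε {v : Idx (N + 1) d → ℤ | ¬ ∀ (K : Type) [Field K] [NumberField K],
    Module.finrank ℚ K ≤ D → ∀ x : Fin (N + 1) → K, x ≠ 0 →
    (∃ m n : ℕ, m < n ∧ ∃ c : K, c ≠ 0 ∧
      (pt (sy fun i => (v i : K)))^[n] x = c • (pt (sy fun i => (v i : K)))^[m] x) →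
    ∃ c : K, c ≠ 0 ∧
      (pt (sy fun i => (v i : K)))^[b + e] x = c • (pt (sy fun i => (v i : K)))^[b] x}

end Pool.Agent.W275.UB
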