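import Pool.Agent.W275.UB.Fin8
import Pool.Agent.H294UB.Cnt
import Pool.Agent.H294UB.Fib
import Pool.Agent.W405.UB.Itr
import Pool.Agent.W32.UB.Eul
import Pool.Agent.W333.UB.Mon
import Pool.Agent.W800.UB.Red
import Pool.Agent.W800.UB.Lev
import Pool.Agent.W72.UB.Disc
import Pool.Agent.W366.UB.Tail
import Pool.Agent.W193.UB.Core
import Pool.Agent.W347.UB.C1
import Pool.Agent.W230.UB.Cram
import Pool.Agent.W563.UB.Null
import Pool.Agent.W407.UB.Model
import Pool.Agent.W74.UB.C2
import Pool.Agent.W883.UB.Dens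
import Pool.Agent.W925.UB.Densp
import Pool.Agent.W930.UB.Newton
import Pool.Agent.W439.UB.Rel
import Pool.Agent.W883.UB.Interp
import Pool.Agent.W800.UB.Sz
import Pool.Agent.W918.UB.Win
import Pool.Agent.W616.UB.Root
import Pool.Agent.W591.UB.Hit
import Pool.Agent.W125.UB.Exu
import Pool.Agent.W410.UB.Urel
import Pool.Agent.W177.UB.Gen
import Pool.Agent.W125.UB.FinT
import Pool.Agent.W21.UB.Nfp
import Pool.Agent.W505.UB.GenT
import Pool.Agent.W688.UB.Theta2
import Pool.Agent.W505.UB.Lmg2
import Pool.Agent.W688.UB.Lmn2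
import Pool.Agent.W305.UB.Norm
import Pool.Agent.W500.UB.Tab

set_option autoImplicit false

/-! Project UB: everything together. -/

namespace Pool.Agent.W275.UB

open MvPolynomial Pool.Agent.H936R2 Pool.Agent.H927R2.RD H294UB

/-- Hilbert irreducibility for integral roots of monic polynomials -/
theorem hit : S_hit := W591.UB.main W925.UB.Densp.main (W439.UB.Rel.main W930.UB.main)
  W883.UB.Interp.main W800.UB.Sz.main W918.UB.Win.main W616.UB.Root.main

theorem gen : S_gen := W177.UB.main W883.UB.Dens.main W125.UB.Exu.main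
  (W410.UB.Urel.main W883.UB.Dens.main hit)

theorem core : S_core :=
  W193.UB.main W405.UB.main W32.UB.main
    (W800.UB.Red.main W405.UB.main W32.UB.main W333.UB.Mon.main)
    (W800.UB.Lev.main W405.UB.main W32.UB.main)
    (W366.UB.Tail.main W32.UB.main (W72.UBDisc.main W32.UB.main))

theorem type2 : S_type2 :=
  typ2 W405.UB.main W32.UB.main W500.UB.Tab.main core W688.UB.Lmn2.main
    (W505.UB.Lmg2.main W688.UB.Theta2.main W125.UB.FinT.tensor_main W21.UB.main)
    W305.UB.Norm.main (W505.UB.GenT.main gen) W125.UB.FinT.fin_main W883.UB.Dens.main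
    W925.UB.Densp.main W347.UB.C1.main
    (W74.UB.C2.main W405.UB.main W32.UB.main W230.UB.Cram.main W563.UB.Null.main W407.UB.main)
    (H294UB.taskCnt H294UB.taskFib)

/-- uniform boundedness for 100% of the systems with coefficients in an order -/
theorem final_order (N d D : ℕ) (hd : 2 ≤ d) : ∃ C : ℕ,
    ∀ (O J : Type) [CommRing O] [IsDomain O] [Fintype J] (ω : Module.Basis J ℤ O),
      D0 {w : Idx (N + 1) d × J → ℤ | ¬ BddO D C (Ph ω w)} :=
  bddO_of_type type2 W883.UB.Dens.main W305.UB.Norm.main W347.UB.C1.main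
    (H294UB.taskCnt H294UB.taskFib) N d D hd

end Pool.Agent.W275.UB
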