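import Pool.Agent.W275.UB.Stm

set_option autoImplicit false

/-! Assembly of project UB. -/

namespace Pool.Agent.W275.UB

open MvPolynomial Pool.Agent.H936R2 Pool.Agent.H927R2.RD H294UB

section basic

variable {R : Type} [CommRing R]

lemma sy_hom {n d : ℕ} (v : Idx n d → R) (i : Fin n) : (sy v i).IsHomogeneous d :=
  sys_isHomogeneous _ i

lemma map_sy {R' : Type} [CommRing R'] {n d : ℕ} (φ : R →+* R') (v : Idx n d → R) :
    (fun i => map φ (sy v i)) = sy (fun i => φ (v i)) := by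
  funext i
  exact map_form φ _

/-- the minors -/
noncomputable def mnr {n : ℕ} (P : Fin n → MvPolynomial (Fin n) R) (b e : ℕ) (j k : Fin n) :
    MvPolynomial (Fin n) R :=
  itr P (b + e) j * itr P b k - itr P (b + e) k * itr P b j

lemma eval_mnr (hitr : S_itr) {R' : Type} [CommRing R'] {n : ℕ}
    (P : Fin n → MvPolynomial (Fin n) R) (φ : R →+* R') (x : Fin n → R') (b e : ℕ) (j k : Fin n) :
    eval₂ φ x (mnr P b e j k) =
      (pt (fun i => map φ (P i)))^[b + e] x j * (pt (fun i => map φ (P i)))^[b] x k -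
      (pt (fun i => map φ (P i)))^[b + e] x k * (pt (fun i => map φ (P i)))^[b] x j := by
  have h0 : ∀ (m : ℕ) (i : Fin n), eval₂ φ x (itr P m i) =
      (pt (fun i => map φ (P i)))^[m] x i := by
    intro m i
    rw [← (hitr R' n 0 (fun i => map φ (P i))).1 m x, ← eval_map,
      (hitr R n 0 P).2.2.2 R' φ m i]
    rfl
  rw [mnr, eval₂_sub, eval₂_mul, eval₂_mul, h0, h0, h0, h0]

/-- the universal system -/
noncomputable def UU (n d : ℕ) : Fin n → MvPolynomial (Fin n) (MvPolynomial (Idx n d) ℤ) :=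
  sy fun i => X i

lemma map_UU {n d : ℕ} {R' : Type} [CommRing R'] (φ : MvPolynomial (Idx n d) ℤ →+* R') :
    (fun i => map φ (UU n d i)) = sy (fun i => φ (X i)) := map_sy φ _

end basic

section field

variable {K : Type} [Field K]

lemma prop_of_minors {n : ℕ} (u w : Fin n → K) (hu : u ≠ 0) (hw : w ≠ 0)
    (h : ∀ j k, u j * w k - u k * w j = 0) : ∃ c : K, c ≠ 0 ∧ u = c • w := by
  obtain ⟨k, hk⟩ := Function.ne_iff.1 hw
  have hk' : w k ≠ 0 := hk
  have h1 : u = (u k / w k) • w := by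
    funext j
    have := h j k
    simp only [Pi.smul_apply, smul_eq_mul]
    field_simp
    linear_combination this
  refine ⟨u k / w k, ?_, h1⟩
  intro h0
  rw [h0, zero_smul] at h1
  exact hu h1

lemma no_zero {n s : ℕ} (P : Fin n → MvPolynomial (Fin n) K) (hM : MonIn s P) (x : Fin n → K)
    (h : ∀ i, eval x (P i) = 0) : x = 0 := by
  funext i
  have h1 := hM (Finsupp.single i s) (by rw [Finsupp.degree_single])
  have h2 : Ideal.span (Set.range P) ≤ RingHom.ker (eval x) := by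
    rw [Ideal.span_le]
    rintro _ ⟨j, rfl⟩
    exact h j
  have h3 := h2 h1
  rw [RingHom.mem_ker, eval_monomial] at h3
  simp only [one_mul] at h3
  rw [Finsupp.prod_single_index (h := fun n e => x n ^ e) (pow_zero _)] at h3
  exact eq_zero_of_pow_eq_zero h3

lemma iter_ne_zero {n s : ℕ} (P : Fin n → MvPolynomial (Fin n) K) (hM : MonIn s P) (x : Fin n → K)
    (hx : x ≠ 0) (k : ℕ) : (pt P)^[k] x ≠ 0 := by
  induction k with
  | zero => exact hx
  | succ k ih =>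
    rw [Function.iterate_succ_apply']
    intro h
    exact ih (no_zero P hM _ fun i => congrFun h i)

lemma minors_of_prop {n : ℕ} (u w : Fin n → K) (c : K) (h : u = c • w) (j k : Fin n) :
    u j * w k - u k * w j = 0 := by
  rw [h]
  simp only [Pi.smul_apply, smul_eq_mul]
  ring

/-- scaling of points -/
lemma iter_smul {n d : ℕ} (P : Fin n → MvPolynomial (Fin n) K) (hP : ∀ i, (P i).IsHomogeneous d)
    (heul : S_eul) (c : K) (x : Fin n → K) (k : ℕ) :
    (pt P)^[k] (c • x) = c ^ d ^ k • (pt P)^[k] x := by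
  induction k with
  | zero => simp
  | succ k ih =>
    rw [Function.iterate_succ_apply', ih, (heul K n d P hP).1, Function.iterate_succ_apply',
      ← pow_mul, ← pow_succ]

end field

section dens

variable {ι : Type} [Fintype ι]

lemma box_fin (S : Set (ι → ℤ)) (H : ℕ) :
    ({v | v ∈ S ∧ ∀ i, |v i| ≤ (H : ℤ)} : Set (ι → ℤ)).Finite := by
  classical
  refine (Set.Finite.subset (Finset.finite_toSet
    (Fintype.piFinset fun _ : ι => Finset.Icc (-(H : ℤ)) H)) ?_)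
  rintro v ⟨_, hv⟩
  rw [Finset.mem_coe, Fintype.mem_piFinset]
  intro i
  rw [Finset.mem_Icc]
  exact abs_le.1 (hv i)

lemma UD.mono {ε : ℝ} {S T : Set (ι → ℤ)} (h : UD ε T) (hST : S ⊆ T) : UD ε S := by
  obtain ⟨H₀, h⟩ := h
  refine ⟨H₀, fun H hH => le_trans ?_ (h H hH)⟩
  have h1 : ({v | v ∈ S ∧ ∀ i, |v i| ≤ (H : ℤ)} : Set (ι → ℤ)) ⊆
      {v | v ∈ T ∧ ∀ i, |v i| ≤ (H : ℤ)} := fun v hv => ⟨hST hv.1, hv.2⟩
  exact_mod_cast Set.ncard_le_ncard h1 (box_fin T H)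

lemma UD.union {ε ε' : ℝ} {S T : Set (ι → ℤ)} (h : UD ε S) (h' : UD ε' T) :
    UD (ε + ε') (S ∪ T) := by
  obtain ⟨H₀, h⟩ := h
  obtain ⟨H₁, h'⟩ := h'
  refine ⟨max H₀ H₁, fun H hH => ?_⟩
  have h1 := h H ((le_max_left _ _).trans hH)
  have h2 := h' H ((le_max_right _ _).trans hH)
  have h3 : ({v | v ∈ S ∪ T ∧ ∀ i, |v i| ≤ (H : ℤ)} : Set (ι → ℤ)) =
      {v | v ∈ S ∧ ∀ i, |v i| ≤ (H : ℤ)} ∪ {v | v ∈ T ∧ ∀ i, |v i| ≤ (H : ℤ)} := by
    ext v
    simp only [Set.mem_union, Set.mem_setOf_eq]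
    tauto
  rw [h3]
  have h4 := Set.ncard_union_le ({v | v ∈ S ∧ ∀ i, |v i| ≤ (H : ℤ)} : Set (ι → ℤ))
    {v | v ∈ T ∧ ∀ i, |v i| ≤ (H : ℤ)}
  have h5 : (((({v | v ∈ S ∧ ∀ i, |v i| ≤ (H : ℤ)} : Set (ι → ℤ)) ∪
      {v | v ∈ T ∧ ∀ i, |v i| ≤ (H : ℤ)}).ncard : ℕ) : ℝ) ≤
      ((({v | v ∈ S ∧ ∀ i, |v i| ≤ (H : ℤ)} : Set (ι → ℤ)).ncard : ℕ) : ℝ) +
      ((({v | v ∈ T ∧ ∀ i, |v i| ≤ (H : ℤ)} : Set (ι → ℤ)).ncard : ℕ) : ℝ) := by
    exact_mod_cast h4
  nlinarith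

/-- density zero -/
def D0 (S : Set (ι → ℤ)) : Prop := ∀ ε : ℝ, 0 < ε → UD ε S

lemma D0.union {S T : Set (ι → ℤ)} (h : D0 S) (h' : D0 T) : D0 (S ∪ T) := by
  intro ε hε
  have := (h (ε / 2) (by positivity)).union (h' (ε / 2) (by positivity))
  rwa [add_halves] at this

lemma D0.empty : D0 (∅ : Set (ι → ℤ)) := by
  intro ε hε
  refine ⟨0, fun H _ => ?_⟩
  have : ({v | v ∈ (∅ : Set (ι → ℤ)) ∧ ∀ i, |v i| ≤ (H : ℤ)} : Set (ι → ℤ)) = ∅ := by
    ext v; simp
  rw [this, Set.ncard_empty]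
  push_cast
  positivity

lemma D0.biUnion {J : Type} (s : Finset J) (f : J → Set (ι → ℤ)) (h : ∀ j ∈ s, D0 (f j)) :
    D0 (⋃ j ∈ s, f j) := by
  classical
  induction s using Finset.induction_on with
  | empty => simpa using D0.empty
  | insert a s ha ih =>
    rw [Finset.set_biUnion_insert]
    exact (h a (Finset.mem_insert_self _ _)).union
      (ih fun j hj => h j (Finset.mem_insert_of_mem hj))

end dens

lemma LM.weaken {p D V : ℕ} {ι : Type} {c₁ : MvPolynomial ι ℤ} {K : Type} [Field K] {v : ι → K}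
    (h : LM p D V c₁ 1 K v) : LM p D 0 c₁ 1 K v := by
  obtain ⟨K', i1, φ, A, i2, i3, i4, i5, i6, π, a, h1, h2, h3, h4, h5, h6⟩ := h
  refine ⟨K', i1, φ, A, i2, i3, i4, i5, i6, π, a, h1, h2, h3, h4, ?_, h6⟩
  intro h7
  rw [map_one] at h7
  exact h1.not_isUnit (isUnit_of_dvd_one ((dvd_pow_self π (by omega)).trans h7))

end Pool.Agent.W275.UB
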