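import Pool.Agent.W275.UB.Fin

set_option autoImplicit false

/-! Assembly of project UB: the exceptional sets of density zero. -/

namespace Pool.Agent.W275.UB

open MvPolynomial Pool.Agent.H936R2 Pool.Agent.H927R2.RD H294UB

/-- the equations of the points of type `(b, e)` with coordinate `i0` equal to `1` -/
def GS (n d b e : ℕ) (i0 : Fin n) : Set (MvPolynomial (Fin n) (MvPolynomial (Idx n d) ℤ)) :=
  insert (X i0 - 1) (Set.range fun jk : Fin n × Fin n => mnr (UU n d) b e jk.1 jk.2)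

lemma gs_iff (hitr : S_itr) {n d b e : ℕ} (i0 : Fin n) {R : Type} [CommRing R]
    (φ : MvPolynomial (Idx n d) ℤ →+* R) (x : Fin n → R) :
    (∀ g ∈ GS n d b e i0, eval₂ φ x g = 0) ↔ (x i0 = 1 ∧ ∀ j k,
      (pt (sy fun i => φ (X i)))^[b + e] x j * (pt (sy fun i => φ (X i)))^[b] x k -
      (pt (sy fun i => φ (X i)))^[b + e] x k * (pt (sy fun i => φ (X i)))^[b] x j = 0) := by
  have h1 : ∀ j k, eval₂ φ x (mnr (UU n d) b e j k) =
      (pt (sy fun i => φ (X i)))^[b + e] x j * (pt (sy fun i => φ (X i)))^[b] x k -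
      (pt (sy fun i => φ (X i)))^[b + e] x k * (pt (sy fun i => φ (X i)))^[b] x j := by
    intro j k
    rw [eval_mnr hitr, map_UU]
  constructor
  · intro h
    refine ⟨?_, fun j k => ?_⟩
    · have := h _ (Set.mem_insert _ _)
      rw [eval₂_sub, eval₂_X, eval₂_one, sub_eq_zero] at this
      exact this
    · rw [← h1]
      exact h _ (Set.mem_insert_of_mem _ ⟨(j, k), rfl⟩)
  · rintro ⟨h2, h3⟩ g hg
    rcases Set.mem_insert_iff.1 hg with rfl | ⟨jk, rfl⟩
    · rw [eval₂_sub, eval₂_X, eval₂_one, h2, sub_self]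
    · rw [h1]
      exact h3 _ _

lemma gn_ne_zero {ι Ω : Type} [Field Ω] [Algebra (EE ι) Ω] (c : MvPolynomial ι ℤ) (hc : c ≠ 0) :
    gn ι Ω c ≠ 0 := by
  intro h
  apply hc
  rw [gn, RingHom.comp_apply] at h
  have h1 := (algebraMap (EE ι) Ω).injective (h.trans (map_zero _).symm)
  exact IsFractionRing.injective (MvPolynomial ι ℤ) (EE ι) (h1.trans (map_zero _).symm)

lemma gn_aeval {ι Ω : Type} [Field Ω] [Algebra (EE ι) Ω] (c : MvPolynomial ι ℤ) :
    aeval (fun i => gn ι Ω (X i)) c = gn ι Ω c := by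
  induction c using MvPolynomial.induction_on with
  | C a => simp [gn]
  | add p q hp hq => rw [map_add, map_add, hp, hq]
  | mul_X p i hp => rw [map_mul, map_mul, hp, aeval_X]

lemma monIn_gn {n d s : ℕ} {c : MvPolynomial (Idx n d) ℤ} (hc : c ≠ 0) (hM : Mac c s) (Ω : Type)
    [Field Ω] [Algebra (EE (Idx n d)) Ω] : MonIn s (sy fun i => gn (Idx n d) Ω (X i)) := by
  apply hM
  rw [gn_aeval]
  exact (gn_ne_zero c hc).isUnit

theorem bad0 (hitr : S_itr) (hgen : S_gen) (hfin : S_fin) (hcnt : TaskCnt)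
    {N d D s : ℕ} (hd : 2 ≤ d) (c₁ : MvPolynomial (Idx (N + 1) d) ℤ) (hc₁ : c₁ ≠ 0)
    (hMac : Mac c₁ s) (b0 e0 b1 e1 : ℕ) (he1 : 0 < e1)
    (hloc : ∀ (L : Type) [Field L] [Algebra (EE (Idx (N + 1) d)) L]
      [FiniteDimensional (EE (Idx (N + 1) d)) L], Module.finrank (EE (Idx (N + 1) d)) L ≤ D →
      ∀ x : Fin (N + 1) → L, x ≠ 0 →
      (∃ m n : ℕ, m < n ∧ ∃ c : L, c ≠ 0 ∧
        (pt (sy fun i => gn (Idx (N + 1) d) L (X i)))^[n] x =
          c • (pt (sy fun i => gn (Idx (N + 1) d) L (X i)))^[m] x) →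
      ∃ c : L, c ≠ 0 ∧ (pt (sy fun i => gn (Idx (N + 1) d) L (X i)))^[b0 + e0] x =
          c • (pt (sy fun i => gn (Idx (N + 1) d) L (X i)))^[b0] x)
    (i0 j k : Fin (N + 1)) :
    D0 {v : Idx (N + 1) d → ℤ |
      ∃ (K : Type) (_ : Field K) (_ : NumberField K) (x : Fin (N + 1) → K),
        Module.finrank ℚ K ≤ D ∧
        (∀ g ∈ GS (N + 1) d b1 e1 i0, eval₂ ((Int.castRingHom K).comp (eval v)) x g = 0) ∧
        eval₂ ((Int.castRingHom K).comp (eval v)) x (mnr (UU (N + 1) d) b0 e0 j k) ≠ 0} := by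
  by_contra hcon
  obtain ⟨L, _, _, x, hfd, hdeg, hx, hne⟩ := hgen (Idx (N + 1) d) (N + 1) D
    (GS (N + 1) d b1 e1 i0) (mnr (UU (N + 1) d) b0 e0 j k) (by
      intro Ω _ _ _ x hx j
      obtain ⟨C, hC⟩ := hcnt N s b1 e1 he1
      apply hfin (EE (Idx (N + 1) d)) Ω (N + 1) C
        ((fun g => map (algebraMap (MvPolynomial (Idx (N + 1) d) ℤ) (EE (Idx (N + 1) d))) g) ''
          GS (N + 1) d b1 e1 i0)
      · intro Y hY
        have hM := monIn_gn hc₁ hMac Ω
        have hY' : ∀ y ∈ Y, y i0 = 1 ∧ ∃ c : Ω, c ≠ 0 ∧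
            (pt (sy fun i => gn (Idx (N + 1) d) Ω (X i)))^[b1 + e1] y =
              c • (pt (sy fun i => gn (Idx (N + 1) d) Ω (X i)))^[b1] y := by
          intro y hy
          have h1 : ∀ g ∈ GS (N + 1) d b1 e1 i0, eval₂ (gn (Idx (N + 1) d) Ω) y g = 0 := by
            intro g hg
            have := hY y hy _ ⟨g, hg, rfl⟩
            rw [aeval_def, eval₂_map] at this
            exact this
          obtain ⟨h2, h3⟩ := (gs_iff hitr i0 _ y).1 h1
          have hy0 : y ≠ 0 := by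
            intro h
            rw [h] at h2
            exact zero_ne_one h2
          exact ⟨h2, prop_of_minors _ _ (iter_ne_zero _ hM y hy0 _) (iter_ne_zero _ hM y hy0 _)
            h3⟩
        apply hC Ω d hd _ (fun i => sy_hom _ i) hM Y
        · intro y hy h
          have := (hY' y hy).1
          rw [h] at this
          exact zero_ne_one this
        · intro y hy z hz c hyz
          have h1 := (hY' y hy).1
          have h2 := (hY' z hz).1
          rw [hyz, Pi.smul_apply, smul_eq_mul, h2, mul_one] at h1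
          rw [hyz, h1, one_smul]
        · exact fun y hy => (hY' y hy).2
      · rintro _ ⟨g, hg, rfl⟩
        rw [aeval_def, eval₂_map]
        exact hx g hg) hcon
  haveI := hfd
  obtain ⟨h1, h2⟩ := (gs_iff hitr i0 _ x).1 hx
  have hM := monIn_gn hc₁ hMac L
  have hx0 : x ≠ 0 := by
    intro h
    rw [h] at h1
    exact zero_ne_one h1
  obtain ⟨c, hc, h3⟩ := prop_of_minors _ _ (iter_ne_zero _ hM x hx0 _) (iter_ne_zero _ hM x hx0 _)
    h2
  obtain ⟨c', _, h4⟩ := hloc L hdeg x hx0 ⟨b1, b1 + e1, by omega, c, hc, h3⟩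
  apply hne
  rw [eval_mnr hitr, map_UU]
  exact minors_of_prop _ _ c' h4 j k

end Pool.Agent.W275.UB
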