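import Pool.Agent.W275.UB.Fin2

set_option autoImplicit false

/-! Assembly of project UB: the type theorem. -/

namespace Pool.Agent.W275.UB

open MvPolynomial Pool.Agent.H936R2 Pool.Agent.H927R2.RD H294UB

lemma exists_prime_ge (n : ℕ) : ∃ p : ℕ, p.Prime ∧ n ≤ p := by
  obtain ⟨p, h1, h2⟩ := Nat.exists_infinite_primes n
  exact ⟨p, h2, h1⟩

lemma UD.add_D0 {ι : Type} [Fintype ι] {ε : ℝ} {S T : Set (ι → ℤ)} {δ : ℝ} (h : UD ε S)
    (h' : D0 T) (hδ : 0 < δ) : UD (ε + δ) (S ∪ T) := h.union (h' δ hδ)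

/-- for `v` outside of a set of density zero the type is bounded -/
theorem typ (hitr : S_itr) (heul : S_eul) (hcore : S_core) (hlmn : S_lmn) (hlmg : S_lmg)
    (hgen : S_gen) (hfin : S_fin) (hdens : S_dens) (hdensp : S_densp) (hc1 : S_c1) (hc2 : S_c2)
    (hcnt : TaskCnt) : S_type := by
  classical
  intro N d D hd
  obtain ⟨c₁, s, ⟨v₀, hv₀⟩, hMac⟩ := hc1 (N + 1) d (by omega)
  have hc₁ : c₁ ≠ 0 := by
    intro h
    rw [h, map_zero] at hv₀
    exact zero_ne_one hv₀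
  -- the generic point
  obtain ⟨e0, he0, hcore0⟩ := hcore N d D 2 3 hd Nat.prime_two Nat.prime_three (by norm_num)
  obtain ⟨c₂, s₂, hc₂, hCrit⟩ := hc2 N d e0 hd he0
  obtain ⟨V₂, hV₂⟩ := hlmg D 2 (Idx (N + 1) d) c₁ c₂ Nat.prime_two ⟨v₀, hv₀⟩ hc₂
  obtain ⟨V₃, hV₃⟩ := hlmg D 3 (Idx (N + 1) d) c₁ 1 Nat.prime_three ⟨v₀, hv₀⟩ one_ne_zero
  obtain ⟨b0, hb0⟩ := hcore0 V₂
  have hloc : ∀ (L : Type) [Field L] [Algebra (EE (Idx (N + 1) d)) L]
      [FiniteDimensional (EE (Idx (N + 1) d)) L], Module.finrank (EE (Idx (N + 1) d)) L ≤ D →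
      ∀ x : Fin (N + 1) → L, x ≠ 0 →
      (∃ m n : ℕ, m < n ∧ ∃ c : L, c ≠ 0 ∧
        (pt (sy fun i => gn (Idx (N + 1) d) L (X i)))^[n] x =
          c • (pt (sy fun i => gn (Idx (N + 1) d) L (X i)))^[m] x) →
      ∃ c : L, c ≠ 0 ∧ (pt (sy fun i => gn (Idx (N + 1) d) L (X i)))^[b0 + e0] x =
          c • (pt (sy fun i => gn (Idx (N + 1) d) L (X i)))^[b0] x := by
    intro L _ _ _ hL x hx hpre
    haveI : CharZero L := charZero_of_injective_algebraMap (algebraMap (EE (Idx (N + 1) d)) L).injective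
    exact hb0 c₁ c₂ s s₂ hMac hCrit L _ (hV₂ L hL) (hV₃ L hL).weaken x hx hpre
  refine ⟨b0, e0, he0, ?_⟩
  intro ε hε
  -- two large primes
  obtain ⟨P₀, hP₀⟩ := hdensp (Idx (N + 1) d) c₁ hc₁ (ε / 4) (by positivity)
  obtain ⟨p, hp, hpP⟩ := exists_prime_ge P₀
  obtain ⟨q, hq, hqP⟩ := exists_prime_ge (max P₀ (p + 1))
  have hpq : p ≠ q := by
    have := (le_max_right P₀ (p + 1)).trans hqP
    omega
  obtain ⟨e1, he1, hcore1⟩ := hcore N d D p q hd hp hq hpq
  obtain ⟨c₂', s₂', hc₂', hCrit'⟩ := hc2 N d e1 hd he1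
  obtain ⟨V1, hV1⟩ := hdens (Idx (N + 1) d) c₂' hc₂' p hp (ε / 4) (by positivity)
  obtain ⟨b1, hb1⟩ := hcore1 (D * V1)
  set Z : Fin (N + 1) × Fin (N + 1) × Fin (N + 1) → Set (Idx (N + 1) d → ℤ) := fun t =>
    {v : Idx (N + 1) d → ℤ |
      ∃ (K : Type) (_ : Field K) (_ : NumberField K) (x : Fin (N + 1) → K),
        Module.finrank ℚ K ≤ D ∧
        (∀ g ∈ GS (N + 1) d b1 e1 t.1, eval₂ ((Int.castRingHom K).comp (eval v)) x g = 0) ∧
        eval₂ ((Int.castRingHom K).comp (eval v)) x (mnr (UU (N + 1) d) b0 e0 t.2.1 t.2.2) ≠ 0}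
    with hZ
  have hZ0 : D0 (⋃ t ∈ (Finset.univ : Finset (Fin (N + 1) × Fin (N + 1) × Fin (N + 1))), Z t) :=
    D0.biUnion _ _ fun t _ => bad0 hitr hgen hfin hcnt hd c₁ hc₁ hMac b0 e0 b1 e1 he1 hloc
      t.1 t.2.1 t.2.2
  have htot := (((hP₀ p hp hpP).union (hP₀ q hq ((le_max_left _ _).trans hqP))).union hV1).add_D0
    hZ0 (δ := ε / 4) (by positivity)
  have hsum : ε / 4 + ε / 4 + ε / 4 + ε / 4 = ε := by ring
  rw [hsum] at htot
  apply htot.mono
  intro v hv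
  by_contra hnot
  simp only [Set.mem_union, not_or] at hnot
  obtain ⟨⟨⟨hn1, hn2⟩, hn3⟩, hn4⟩ := hnot
  apply hv
  intro K _ _ hK x hx hpre
  by_contra hcon
  have hlp : LM p D (D * V1) c₁ c₂' K (fun i => (v i : K)) :=
    hlmn D p V1 (Idx (N + 1) d) c₁ c₂' K hK hp v hn1 hn3
  have hlq : LM q D 0 c₁ 1 K (fun i => (v i : K)) := by
    refine LM.weaken (V := D * 0) (hlmn D q 0 (Idx (N + 1) d) c₁ 1 K hK hq v hn2 ?_)
    rw [map_one, zero_add, pow_one]
    intro h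
    have h1 := Int.isUnit_iff.1 (isUnit_of_dvd_one h)
    have h2 := hq.two_le
    omega
  obtain ⟨c, hc, hrel⟩ := hb1 c₁ c₂' s s₂' hMac hCrit' K _ hlp hlq x hx hpre
  have hev : ∀ i, ((Int.castRingHom K).comp (eval v)) (X i : MvPolynomial (Idx (N + 1) d) ℤ) =
      (v i : K) := by
    intro i
    simp
  have hsy : (sy fun i => ((Int.castRingHom K).comp (eval v))
      (X i : MvPolynomial (Idx (N + 1) d) ℤ)) = sy fun i => (v i : K) := by
    simp only [hev]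
  have hM : MonIn s (sy fun i => (v i : K)) := by
    apply hMac
    have h1 : aeval (fun i => (v i : K)) c₁ = ((eval v c₁ : ℤ) : K) := by
      have h2 := MvPolynomial.aeval_def (fun i => (v i : K)) c₁
      rw [h2]
      have h3 := MvPolynomial.eval₂_comp_left (Int.castRingHom K) (RingHom.id ℤ) v c₁
      rw [RingHom.comp_id] at h3
      exact h3.symm
    rw [h1]
    have h2 : eval v c₁ ≠ 0 := by
      intro h
      apply hn1
      change (p : ℤ) ∣ eval v c₁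
      rw [h]
      exact dvd_zero _
    exact (Int.cast_ne_zero.2 h2).isUnit
  obtain ⟨i0, hi0⟩ := Function.ne_iff.1 hx
  have hi0' : x i0 ≠ 0 := hi0
  -- the scaled point
  set t : K := (x i0)⁻¹ with ht
  have ht0 : t ≠ 0 := inv_ne_zero hi0'
  set y : Fin (N + 1) → K := t • x with hy
  have hyit : ∀ m, (pt (sy fun i => (v i : K)))^[m] y =
      t ^ d ^ m • (pt (sy fun i => (v i : K)))^[m] x :=
    fun m => iter_smul _ (fun i => sy_hom _ i) heul t x m
  apply hn4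
  -- some minor does not vanish
  have hex : ∃ j k, (pt (sy fun i => (v i : K)))^[b0 + e0] y j *
      (pt (sy fun i => (v i : K)))^[b0] y k - (pt (sy fun i => (v i : K)))^[b0 + e0] y k *
      (pt (sy fun i => (v i : K)))^[b0] y j ≠ 0 := by
    by_contra hall
    push Not at hall
    apply hcon
    have h1 : ∀ j k, (pt (sy fun i => (v i : K)))^[b0 + e0] x j *
        (pt (sy fun i => (v i : K)))^[b0] x k - (pt (sy fun i => (v i : K)))^[b0 + e0] x k *
        (pt (sy fun i => (v i : K)))^[b0] x j = 0 := by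
      intro j k
      have h2 := hall j k
      rw [hyit, hyit] at h2
      simp only [Pi.smul_apply, smul_eq_mul] at h2
      have h3 : t ^ d ^ (b0 + e0) * t ^ d ^ b0 ≠ 0 :=
        mul_ne_zero (pow_ne_zero _ ht0) (pow_ne_zero _ ht0)
      apply mul_left_cancel₀ h3
      rw [mul_zero]
      linear_combination h2
    exact prop_of_minors _ _ (iter_ne_zero _ hM x hx _) (iter_ne_zero _ hM x hx _) h1
  obtain ⟨j, k, hjk⟩ := hex
  rw [Set.mem_iUnion₂]
  refine ⟨(i0, j, k), Finset.mem_univ _, K, inferInstance, inferInstance, y, hK, ?_, ?_⟩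
  · rw [gs_iff hitr, hsy]
    refine ⟨?_, ?_⟩
    · rw [hy, Pi.smul_apply, smul_eq_mul, ht]
      exact inv_mul_cancel₀ hi0'
    · apply minors_of_prop _ _ (t ^ d ^ (b1 + e1) * c / t ^ d ^ b1)
      rw [hyit, hyit, hrel, smul_smul, smul_smul]
      congr 1
      have : t ^ d ^ b1 ≠ 0 := pow_ne_zero _ ht0
      field_simp
  · rw [eval_mnr hitr, map_UU, hsy]
    exact hjk

end Pool.Agent.W275.UB
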