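import Pool.Agent.W275.UB.Fin3

set_option autoImplicit false

/-! Assembly of project UB: 100% of the endomorphisms. -/

namespace Pool.Agent.W275.UB

open MvPolynomial Pool.Agent.H936R2 Pool.Agent.H927R2.RD H294UB

/-- uniform boundedness of the preperiodic points over all number fields of degree at most `D` -/
def BddF {N : ℕ} (D C : ℕ) (F : Fin (N + 1) → MvPolynomial (Fin (N + 1)) ℤ) : Prop :=
  (∀ x : Fin (N + 1) → ℂ, pt (overR ℂ F) x = 0 → x = 0) ∧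
    ∀ (K : Type) [Field K] [NumberField K], Module.finrank ℚ K ≤ D →
      ∀ X : Finset (Fin (N + 1) → K), (∀ x ∈ X, x ≠ 0) →
        (∀ x ∈ X, ∀ y ∈ X, ∀ c : K, x = c • y → x = y) →
        (∀ x ∈ X, ∃ m n : ℕ, m < n ∧ ∃ c : K, c ≠ 0 ∧
          (pt (overR K F))^[n] x = c • (pt (overR K F))^[m] x) → X.card ≤ C

lemma D0_zero (hdens : S_dens) {ι : Type} [Fintype ι] (c : MvPolynomial ι ℤ) (hc : c ≠ 0) :
    D0 {v : ι → ℤ | eval v c = 0} := by
  intro ε hε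
  obtain ⟨V, hV⟩ := hdens ι c hc 2 Nat.prime_two ε hε
  apply hV.mono
  intro v hv
  have hv' : eval v c = 0 := hv
  change ((2 : ℕ) : ℤ) ^ (V + 1) ∣ eval v c
  rw [hv']
  exact dvd_zero _

lemma aeval_cast {ι R : Type} [CommRing R] (v : ι → ℤ) (c : MvPolynomial ι ℤ) :
    aeval (fun i => (v i : R)) c = ((eval v c : ℤ) : R) := by
  have h2 := MvPolynomial.aeval_def (fun i => (v i : R)) c
  rw [h2]
  have h3 := MvPolynomial.eval₂_comp_left (Int.castRingHom R) (RingHom.id ℤ) v c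
  rw [RingHom.comp_id] at h3
  exact h3.symm

theorem bdd_of_type (htype : S_type) (hdens : S_dens) (hc1 : S_c1) (hcnt : TaskCnt) (N d D : ℕ)
    (hd : 2 ≤ d) : ∃ C : ℕ, D0 {v : Idx (N + 1) d → ℤ | ¬ BddF D C (sy v)} := by
  obtain ⟨c₁, s, ⟨v₀, hv₀⟩, hMac⟩ := hc1 (N + 1) d (by omega)
  have hc₁ : c₁ ≠ 0 := by
    intro h
    rw [h, map_zero] at hv₀
    exact zero_ne_one hv₀
  obtain ⟨b, e, he, hbe⟩ := htype N d D hd
  obtain ⟨C, hC⟩ := hcnt N s b e he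
  refine ⟨C, ?_⟩
  have h1 := D0.union (S := {v : Idx (N + 1) d → ℤ | eval v c₁ = 0}) (D0_zero hdens c₁ hc₁) hbe
  intro ε hε
  apply (h1 ε hε).mono
  intro v hv
  by_contra hnot
  simp only [Set.mem_union, not_or] at hnot
  obtain ⟨hn1, hn2⟩ := hnot
  have hn1' : eval v c₁ ≠ 0 := hn1
  have hn2' := not_not.1 hn2
  have hsy : ∀ (K : Type) [Field K], overR K (sy v) = sy fun i => (v i : K) := by
    intro K _
    exact overR_sys (R := K) fun i κ => v (i, κ)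
  have hMon : ∀ (K : Type) [Field K] [CharZero K], MonIn s (sy fun i => (v i : K)) := by
    intro K _ _
    apply hMac
    rw [aeval_cast]
    exact (Int.cast_ne_zero.2 hn1').isUnit
  apply hv
  refine ⟨?_, ?_⟩
  · intro x hx
    rw [hsy] at hx
    exact no_zero _ (hMon ℂ) x fun i => congrFun hx i
  · intro K _ _ hK X hX0 hXp hX
    apply hC K d hd (sy fun i => (v i : K)) (fun i => sy_hom _ i) (hMon K) X hX0 hXp
    intro x hx
    have h2 := hX x hx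
    rw [hsy] at h2
    exact hn2' K hK x (hX0 x hx) h2

open Filter Topology in
theorem ratio {N d : ℕ} (P : (Fin (N + 1) → MvPolynomial (Fin (N + 1)) ℤ) → Prop)
    (h : D0 {v : Idx (N + 1) d → ℤ | ¬ P (sy v)}) :
    Tendsto (fun H : ℕ => (({F | F ∈ Box (N + 1) d H ∧ P F} :
      Set (Fin (N + 1) → MvPolynomial (Fin (N + 1)) ℤ)).ncard : ℝ) /
      ((Box (N + 1) d H).ncard : ℝ)) atTop (𝓝 1) := by
  classical
  -- counting
  have hcount : ∀ H : ℕ, (({F | F ∈ Box (N + 1) d H ∧ P F} :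
      Set (Fin (N + 1) → MvPolynomial (Fin (N + 1)) ℤ)).ncard : ℝ) =
      (2 * H + 1 : ℝ) ^ Fintype.card (Idx (N + 1) d) -
      (({v | v ∈ {v : Idx (N + 1) d → ℤ | ¬ P (sy v)} ∧ ∀ i, |v i| ≤ (H : ℤ)} :
        Set (Idx (N + 1) d → ℤ)).ncard : ℝ) := by
    intro H
    have h1 : ({F | F ∈ Box (N + 1) d H ∧ P F} :
        Set (Fin (N + 1) → MvPolynomial (Fin (N + 1)) ℤ)).ncard =
        ({v | (∀ i, |v i| ≤ (H : ℤ)) ∧ P (sy v)} : Set (Idx (N + 1) d → ℤ)).ncard := by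
      rw [ncard_box_filter, ← Nat.card_coe_set_eq]
      rfl
    have h2 : ({v | ∀ i, |v i| ≤ (H : ℤ)} : Set (Idx (N + 1) d → ℤ)).ncard =
        (2 * H + 1) ^ Fintype.card (Idx (N + 1) d) := by
      rw [← card_box_vectors, ← Nat.card_coe_set_eq]
      rfl
    have h3 : ({v | ∀ i, |v i| ≤ (H : ℤ)} : Set (Idx (N + 1) d → ℤ)) =
        {v | (∀ i, |v i| ≤ (H : ℤ)) ∧ P (sy v)} ∪
        {v | v ∈ {v : Idx (N + 1) d → ℤ | ¬ P (sy v)} ∧ ∀ i, |v i| ≤ (H : ℤ)} := by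
      ext v
      simp only [Set.mem_union, Set.mem_setOf_eq]
      tauto
    have hfin1 : ({v | ∀ i, |v i| ≤ (H : ℤ)} : Set (Idx (N + 1) d → ℤ)).Finite := by
      have := box_fin (Set.univ : Set (Idx (N + 1) d → ℤ)) H
      simpa using this
    have h4 : ({v | ∀ i, |v i| ≤ (H : ℤ)} : Set (Idx (N + 1) d → ℤ)).ncard =
        ({v | (∀ i, |v i| ≤ (H : ℤ)) ∧ P (sy v)} : Set (Idx (N + 1) d → ℤ)).ncard +
        ({v | v ∈ {v : Idx (N + 1) d → ℤ | ¬ P (sy v)} ∧ ∀ i, |v i| ≤ (H : ℤ)} :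
        Set (Idx (N + 1) d → ℤ)).ncard := by
      rw [h3]
      apply Set.ncard_union_eq
      · rw [Set.disjoint_left]
        rintro v ⟨_, hv⟩ ⟨hv', _⟩
        exact hv' hv
      · exact hfin1.subset fun v hv => hv.1
      · exact hfin1.subset fun v hv => hv.2
    have h5 : (({v | (∀ i, |v i| ≤ (H : ℤ)) ∧ P (sy v)} : Set (Idx (N + 1) d → ℤ)).ncard : ℝ) +
        (({v | v ∈ {v : Idx (N + 1) d → ℤ | ¬ P (sy v)} ∧ ∀ i, |v i| ≤ (H : ℤ)} :
        Set (Idx (N + 1) d → ℤ)).ncard : ℝ) = (2 * H + 1 : ℝ) ^ Fintype.card (Idx (N + 1) d) := by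
      have h6 := h4.symm.trans h2
      exact_mod_cast h6
    rw [h1]
    linarith
  have hbox : ∀ H : ℕ, ((Box (N + 1) d H).ncard : ℝ) =
      (2 * H + 1 : ℝ) ^ Fintype.card (Idx (N + 1) d) := by
    intro H
    rw [ncard_box]
    push_cast
    ring
  rw [Metric.tendsto_atTop]
  intro ε hε
  obtain ⟨H₀, hH₀⟩ := h (ε / 2) (by positivity)
  refine ⟨H₀, fun H hH => ?_⟩
  have h1 := hH₀ H hH
  have hpos : (0 : ℝ) < (2 * H + 1 : ℝ) ^ Fintype.card (Idx (N + 1) d) := by positivity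
  rw [hcount, hbox, sub_div, div_self hpos.ne', Real.dist_eq]
  have h2 : (0 : ℝ) ≤ (({v | v ∈ {v : Idx (N + 1) d → ℤ | ¬ P (sy v)} ∧
      ∀ i, |v i| ≤ (H : ℤ)} : Set (Idx (N + 1) d → ℤ)).ncard : ℝ) /
      (2 * H + 1 : ℝ) ^ Fintype.card (Idx (N + 1) d) := by positivity
  have h3 : (({v | v ∈ {v : Idx (N + 1) d → ℤ | ¬ P (sy v)} ∧
      ∀ i, |v i| ≤ (H : ℤ)} : Set (Idx (N + 1) d → ℤ)).ncard : ℝ) /
      (2 * H + 1 : ℝ) ^ Fintype.card (Idx (N + 1) d) ≤ ε / 2 := by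
    rw [div_le_iff₀ hpos]
    exact h1
  rw [abs_lt]
  constructor <;> linarith

end Pool.Agent.W275.UB
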