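import Pool.Agent.W275.UB.Stm

/-!
# Uniform boundedness for 100% of the endomorphisms of `P^N` over every number field: statements

`O` is an order: a domain with a finite basis `ω : Basis J ℤ O`. Coefficient vectors
`v : ι → O` are given by their coordinates `w : ι × J → ℤ`, `v i = ∑ j, ω j * w (i, j)`.
-/

set_option autoImplicit false

namespace Pool.Agent.W275.UB

open MvPolynomial Pool.Agent.H936R2 Pool.Agent.H927R2.RD H294UB

/-- the coefficient vector over `R` with coordinates `w` with respect to the elements `z` -/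
def cv {R ι J : Type} [CommRing R] [Fintype J] (z : J → R) (w : ι × J → R) : ι → R :=
  fun i => ∑ j, z j * w (i, j)

/-- `z` satisfies the multiplication table of the basis `ω` -/
def Tab {O J R : Type} [CommRing O] [Fintype J] [CommRing R] (ω : Module.Basis J ℤ O)
    (z : J → R) : Prop :=
  (∀ j l, z j * z l = ∑ t, ((ω.repr (ω j * ω l) t : ℤ) : R) * z t) ∧
    ∑ t, ((ω.repr 1 t : ℤ) : R) * z t = 1

/-- a ring homomorphism `O → R` is the same as a solution of the multiplication table -/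
def S_tab : Prop := ∀ (O J R : Type) [CommRing O] [Fintype J] [CommRing R]
  (ω : Module.Basis J ℤ O) (z : J → R), Tab ω z ↔ ∃ σ : O →+* R, ∀ j, z j = σ (ω j)

/-- norm polynomials -/
def S_norm : Prop := ∀ (O J ι : Type) [CommRing O] [IsDomain O] [Fintype J] [Fintype ι]
  (ω : Module.Basis J ℤ O) (c : MvPolynomial ι ℤ), c ≠ 0 →
  ∃ cn : MvPolynomial (ι × J) ℤ, cn ≠ 0 ∧
    ∀ (R : Type) [CommRing R] (σ : O →+* R) (w : ι × J → R),
      aeval (cv (fun j => σ (ω j)) w) c ∣ aeval w cn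

/-- generic `p`-adic integers close to given ones -/
def S_theta2 : Prop := ∀ (p : ℕ) [Fact p.Prime] (ι : Type) [Fintype ι] (a : ι → ℤ_[p]) (M : ℕ),
  ∃ θ : ι → ℤ_[p], (∀ i, (p : ℤ_[p]) ^ M ∣ θ i - a i) ∧
    ∀ c : MvPolynomial ι ℤ, c ≠ 0 → aeval θ c ≠ 0

/-- local models for number fields, coefficients in an order -/
def S_lmn2 : Prop := ∀ (D p V : ℕ) (O J ι : Type) [CommRing O] [IsDomain O] [Fintype J]
  [Fintype ι] (ω : Module.Basis J ℤ O) (c₁ c₂ : MvPolynomial ι ℤ) (n₁ n₂ : MvPolynomial (ι × J) ℤ),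
  (∀ (R : Type) [CommRing R] (σ : O →+* R) (w : ι × J → R),
    aeval (cv (fun j => σ (ω j)) w) c₁ ∣ aeval w n₁) →
  (∀ (R : Type) [CommRing R] (σ : O →+* R) (w : ι × J → R),
    aeval (cv (fun j => σ (ω j)) w) c₂ ∣ aeval w n₂) →
  ∀ (K : Type) [Field K] [NumberField K] (σ : O →+* K), Module.finrank ℚ K ≤ D → p.Prime →
  ∀ w : ι × J → ℤ, ¬ (p : ℤ) ∣ eval w n₁ → ¬ (p : ℤ) ^ (V + 1) ∣ eval w n₂ →
  LM p D (D * V) c₁ c₂ K (cv (fun j => σ (ω j)) (fun q => (w q : K)))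

/-- local models for finite extensions of the field of rational functions, coefficients in an
order; the constant `V` does not depend on the order -/
def S_lmg2 : Prop := ∀ (D p : ℕ) (ι : Type) [Fintype ι] (c₁ c₂ : MvPolynomial ι ℤ), p.Prime →
  (∃ v : ι → ℤ, eval v c₁ = 1) → c₂ ≠ 0 → ∃ V : ℕ, ∀ (O J : Type) [CommRing O] [IsDomain O]
  [Fintype J] (ω : Module.Basis J ℤ O) (L : Type) [Field L] [Algebra (EE (ι × J)) L]
  [FiniteDimensional (EE (ι × J)) L], Module.finrank (EE (ι × J)) L ≤ D → ∀ σ : O →+* L,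
  LM p D V c₁ c₂ L (cv (fun j => σ (ω j)) (fun q => gn (ι × J) L (X q)))

/-- `S_gen` with an arbitrary finite type of unknowns -/
def S_genT : Prop := ∀ (ι τ : Type) [Fintype ι] [Fintype τ] (D : ℕ)
  (G : Set (MvPolynomial τ (MvPolynomial ι ℤ))) (h : MvPolynomial τ (MvPolynomial ι ℤ)),
  (∀ (Ω : Type) [Field Ω] [IsAlgClosed Ω] [Algebra (EE ι) Ω] (x : τ → Ω),
    (∀ g ∈ G, eval₂ (gn ι Ω) x g = 0) → ∀ j, IsAlgebraic (EE ι) (x j)) →
  ¬ (∀ ε : ℝ, 0 < ε → UD ε {v : ι → ℤ |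
    ∃ (K : Type) (_ : Field K) (_ : NumberField K) (x : τ → K), Module.finrank ℚ K ≤ D ∧
      (∀ g ∈ G, eval₂ ((Int.castRingHom K).comp (eval v)) x g = 0) ∧
      eval₂ ((Int.castRingHom K).comp (eval v)) x h ≠ 0}) →
  ∃ (L : Type) (_ : Field L) (_ : Algebra (EE ι) L) (x : τ → L),
    FiniteDimensional (EE ι) L ∧ Module.finrank (EE ι) L ≤ D ∧
    (∀ g ∈ G, eval₂ (gn ι L) x g = 0) ∧ eval₂ (gn ι L) x h ≠ 0

end Pool.Agent.W275.UB
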