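import Pool.Agent.W275.UB.Fin4
import Pool.Agent.W275.UB.Stm2

set_option autoImplicit false

/-! Assembly of project UB, coefficients in an order. -/

namespace Pool.Agent.W275.UB

open MvPolynomial Pool.Agent.H936R2 Pool.Agent.H927R2.RD H294UB

section defs

variable (n d : ℕ) (J : Type) [Fintype J]

/-- the ring of the universal system -/
abbrev RR : Type := MvPolynomial J (MvPolynomial (Idx n d × J) ℤ)

/-- the universal system, `v_i = ∑ z_j w_(i,j)` -/
noncomputable def UO : Fin n → MvPolynomial (Fin n) (RR n d J) :=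
  sy (cv (R := RR n d J) (fun j => X j) (fun q => C (X q)))

/-- the minors as polynomials in all unknowns -/
noncomputable def mO (b e : ℕ) (j k : Fin n) :
    MvPolynomial (Fin n ⊕ J) (MvPolynomial (Idx n d × J) ℤ) :=
  iterToSum (MvPolynomial (Idx n d × J) ℤ) (Fin n) J (mnr (UO n d J) b e j k)

variable {n d J}

/-- the equations -/
def GO {O : Type} [CommRing O] (ω : Module.Basis J ℤ O) (b e : ℕ) (i0 : Fin n) :
    Set (MvPolynomial (Fin n ⊕ J) (MvPolynomial (Idx n d × J) ℤ)) :=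
  {g | (∃ j k, g = mO n d J b e j k) ∨ g = X (Sum.inl i0) - 1 ∨
    (∃ j l, g = X (Sum.inr j) * X (Sum.inr l) -
      ∑ t, ((ω.repr (ω j * ω l) t : ℤ) :
        MvPolynomial (Fin n ⊕ J) (MvPolynomial (Idx n d × J) ℤ)) * X (Sum.inr t)) ∨
    g = ∑ t, ((ω.repr 1 t : ℤ) :
        MvPolynomial (Fin n ⊕ J) (MvPolynomial (Idx n d × J) ℤ)) * X (Sum.inr t) - 1}

lemma eval_iter {R : Type} [CommRing R] (φ : MvPolynomial (Idx n d × J) ℤ →+* R) (x : Fin n → R)
    (z : J → R) (g : MvPolynomial (Fin n) (RR n d J)) :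
    eval₂ φ (Sum.elim x z) (iterToSum (MvPolynomial (Idx n d × J) ℤ) (Fin n) J g) =
      eval₂ (eval₂Hom φ z) x g := by
  have h : (eval₂Hom φ (Sum.elim x z)).comp (iterToSum (MvPolynomial (Idx n d × J) ℤ) (Fin n) J) =
      eval₂Hom (eval₂Hom φ z) x := by
    apply MvPolynomial.ringHom_ext
    · intro r
      have h2 : ((eval₂Hom φ (Sum.elim x z)).comp
          (iterToSum (MvPolynomial (Idx n d × J) ℤ) (Fin n) J)).comp C =
          (eval₂Hom (eval₂Hom φ z) x).comp C := by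
        apply MvPolynomial.ringHom_ext
        · intro a
          simp [iterToSum_C_C]
        · intro j
          simp [iterToSum_C_X]
      exact RingHom.congr_fun h2 r
    · intro i
      simp [iterToSum_X]
  exact RingHom.congr_fun h g

lemma eval_mO (hitr : S_itr) {R : Type} [CommRing R] (φ : MvPolynomial (Idx n d × J) ℤ →+* R)
    (x : Fin n → R) (z : J → R) (b e : ℕ) (j k : Fin n) :
    eval₂ φ (Sum.elim x z) (mO n d J b e j k) =
      (pt (sy (cv z fun q => φ (X q))))^[b + e] x j * (pt (sy (cv z fun q => φ (X q))))^[b] x k -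
      (pt (sy (cv z fun q => φ (X q))))^[b + e] x k * (pt (sy (cv z fun q => φ (X q))))^[b] x j := by
  have h1 : (fun i => map (eval₂Hom φ z) (UO n d J i)) = sy (cv z fun q => φ (X q)) := by
    have h2 := map_sy (eval₂Hom φ z) (cv (R := RR n d J) (fun j => X j) (fun q => C (X q)))
    rw [UO, h2]
    congr 1
    funext i
    simp [cv]
  rw [mO, eval_iter, eval_mnr hitr, h1]

lemma go_iff (hitr : S_itr) (htab : S_tab) {O : Type} [CommRing O] (ω : Module.Basis J ℤ O)
    (b e : ℕ) (i0 : Fin n) {R : Type} [CommRing R] (φ : MvPolynomial (Idx n d × J) ℤ →+* R)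
    (x : Fin n → R) (z : J → R) :
    (∀ g ∈ GO ω b e i0, eval₂ φ (Sum.elim x z) g = 0) ↔
      (∃ σ : O →+* R, z = fun j => σ (ω j)) ∧ x i0 = 1 ∧ ∀ j k,
      (pt (sy (cv z fun q => φ (X q))))^[b + e] x j * (pt (sy (cv z fun q => φ (X q))))^[b] x k -
      (pt (sy (cv z fun q => φ (X q))))^[b + e] x k *
        (pt (sy (cv z fun q => φ (X q))))^[b] x j = 0 := by
  have hcast : ∀ a : ℤ, eval₂ φ (Sum.elim x z)
      ((a : ℤ) : MvPolynomial (Fin n ⊕ J) (MvPolynomial (Idx n d × J) ℤ)) = (a : R) := by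
    intro a
    exact map_intCast (eval₂Hom φ (Sum.elim x z)) a
  have hT : Tab ω z ↔ (∃ σ : O →+* R, z = fun j => σ (ω j)) := by
    rw [htab O J R ω z]
    constructor
    · rintro ⟨σ, h⟩; exact ⟨σ, funext h⟩
    · rintro ⟨σ, h⟩; exact ⟨σ, fun j => congrFun h j⟩
  rw [← hT]
  constructor
  · intro h
    refine ⟨⟨fun j l => ?_, ?_⟩, ?_, fun j k => ?_⟩
    · have h1 := h _ (Or.inr (Or.inr (Or.inl ⟨j, l, rfl⟩)))
      rw [eval₂_sub, eval₂_mul, eval₂_X, eval₂_X, eval₂_sum, sub_eq_zero] at h1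
      simp only [eval₂_mul, hcast, eval₂_X, Sum.elim_inr] at h1
      exact h1
    · have h1 := h _ (Or.inr (Or.inr (Or.inr rfl)))
      rw [eval₂_sub, eval₂_sum, eval₂_one, sub_eq_zero] at h1
      simp only [eval₂_mul, hcast, eval₂_X, Sum.elim_inr] at h1
      exact h1
    · have h1 := h _ (Or.inr (Or.inl rfl))
      rw [eval₂_sub, eval₂_X, eval₂_one, sub_eq_zero] at h1
      exact h1
    · rw [← eval_mO hitr]
      exact h _ (Or.inl ⟨j, k, rfl⟩)
  · rintro ⟨⟨h1, h2⟩, h3, h4⟩ g hg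
    rcases hg with ⟨j, k, rfl⟩ | rfl | ⟨j, l, rfl⟩ | rfl
    · rw [eval_mO hitr]
      exact h4 j k
    · rw [eval₂_sub, eval₂_X, eval₂_one, sub_eq_zero]
      exact h3
    · rw [eval₂_sub, eval₂_mul, eval₂_X, eval₂_X, eval₂_sum, sub_eq_zero]
      simp only [eval₂_mul, hcast, eval₂_X, Sum.elim_inr]
      exact h1 j l
    · rw [eval₂_sub, eval₂_sum, eval₂_one, sub_eq_zero]
      simp only [eval₂_mul, hcast, eval₂_X, Sum.elim_inr]
      exact h2

end defs

end Pool.Agent.W275.UB
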