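import Pool.Agent.W275.UB.Fin5

set_option autoImplicit false

/-! Assembly of project UB, coefficients in an order: exceptional sets. -/

namespace Pool.Agent.W275.UB

open MvPolynomial Pool.Agent.H936R2 Pool.Agent.H927R2.RD H294UB

lemma monIn_cv {n d s : ℕ} {O J : Type} [CommRing O] [Fintype J] (ω : Module.Basis J ℤ O)
    {c₁ : MvPolynomial (Idx n d) ℤ} {cn : MvPolynomial (Idx n d × J) ℤ} (hcn : cn ≠ 0)
    (hdiv : ∀ (R : Type) [CommRing R] (σ : O →+* R) (w : Idx n d × J → R),
      aeval (cv (fun j => σ (ω j)) w) c₁ ∣ aeval w cn)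
    (hM : Mac c₁ s) (Ω : Type) [Field Ω] [Algebra (EE (Idx n d × J)) Ω] (σ : O →+* Ω) :
    MonIn s (sy (cv (fun j => σ (ω j)) fun q => gn (Idx n d × J) Ω (X q))) := by
  apply hM
  have h1 := hdiv Ω σ (fun q => gn (Idx n d × J) Ω (X q))
  rw [gn_aeval] at h1
  exact (ne_zero_of_dvd_ne_zero (gn_ne_zero cn hcn) h1).isUnit

theorem bad1 (hitr : S_itr) (htab : S_tab) (hgen : S_genT) (hfin : S_fin) (hcnt : TaskCnt)
    {N d D s : ℕ} (hd : 2 ≤ d) {O J : Type} [CommRing O] [IsDomain O] [Fintype J]
    (ω : Module.Basis J ℤ O) (c₁ : MvPolynomial (Idx (N + 1) d) ℤ)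
    (cn : MvPolynomial (Idx (N + 1) d × J) ℤ) (hcn : cn ≠ 0)
    (hdiv : ∀ (R : Type) [CommRing R] (σ : O →+* R) (w : Idx (N + 1) d × J → R),
      aeval (cv (fun j => σ (ω j)) w) c₁ ∣ aeval w cn)
    (hMac : Mac c₁ s) (b0 e0 b1 e1 : ℕ) (he1 : 0 < e1)
    (hloc : ∀ (L : Type) [Field L] [Algebra (EE (Idx (N + 1) d × J)) L]
      [FiniteDimensional (EE (Idx (N + 1) d × J)) L],
      Module.finrank (EE (Idx (N + 1) d × J)) L ≤ D → ∀ σ : O →+* L,
      ∀ x : Fin (N + 1) → L, x ≠ 0 →
      (∃ m n : ℕ, m < n ∧ ∃ c : L, c ≠ 0 ∧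
        (pt (sy (cv (fun j => σ (ω j)) fun q => gn (Idx (N + 1) d × J) L (X q))))^[n] x =
          c • (pt (sy (cv (fun j => σ (ω j)) fun q => gn (Idx (N + 1) d × J) L (X q))))^[m] x) →
      ∃ c : L, c ≠ 0 ∧
        (pt (sy (cv (fun j => σ (ω j)) fun q => gn (Idx (N + 1) d × J) L (X q))))^[b0 + e0] x =
          c • (pt (sy (cv (fun j => σ (ω j)) fun q => gn (Idx (N + 1) d × J) L (X q))))^[b0] x)
    (i0 j k : Fin (N + 1)) :
    D0 {w : Idx (N + 1) d × J → ℤ |
      ∃ (K : Type) (_ : Field K) (_ : NumberField K) (y : Fin (N + 1) ⊕ J → K),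
        Module.finrank ℚ K ≤ D ∧
        (∀ g ∈ GO ω b1 e1 i0, eval₂ ((Int.castRingHom K).comp (eval w)) y g = 0) ∧
        eval₂ ((Int.castRingHom K).comp (eval w)) y (mO (N + 1) d J b0 e0 j k) ≠ 0} := by
  classical
  by_contra hcon
  obtain ⟨L, _, _, y, hfd, hdeg, hy, hne⟩ := hgen (Idx (N + 1) d × J) (Fin (N + 1) ⊕ J) D
    (GO ω b1 e1 i0) (mO (N + 1) d J b0 e0 j k) (by
      intro Ω _ _ _ y hy
      have hy' : y = Sum.elim (fun i => y (Sum.inl i)) (fun j => y (Sum.inr j)) := by
        funext t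
        cases t <;> rfl
      rw [hy'] at hy
      obtain ⟨⟨σ, hσ⟩, hx0, hmin⟩ := (go_iff hitr htab ω b1 e1 i0 _ _ _).1 hy
      rw [hσ] at hmin
      have hM := monIn_cv ω hcn hdiv hMac Ω σ
      -- the images of the basis are algebraic
      have hint : ∀ x : O, IsIntegral ℤ (σ x) := by
        intro x
        haveI : Module.Finite ℤ O := Module.Finite.of_basis ω
        have h1 : IsIntegral ℤ x := Algebra.IsIntegral.isIntegral x
        have h2 := h1.map (σ.toIntAlgHom)
        exact h2
      have hintE : ∀ x : O, IsAlgebraic (EE (Idx (N + 1) d × J)) (σ x) := by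
        intro x
        obtain ⟨p, hp, hpx⟩ := hint x
        refine IsIntegral.isAlgebraic
          ⟨p.map (Int.castRingHom (EE (Idx (N + 1) d × J))), hp.map _, ?_⟩
        rw [Polynomial.eval₂_map]
        have h2 : (algebraMap (EE (Idx (N + 1) d × J)) Ω).comp
            (Int.castRingHom (EE (Idx (N + 1) d × J))) = algebraMap ℤ Ω := RingHom.ext_int _ _
        rw [h2]
        exact hpx
      -- the algebraic closure
      let E' := algebraicClosure (EE (Idx (N + 1) d × J)) Ω
      have hz' : ∀ j, ∃ z' : E', (z' : Ω) = σ (ω j) := fun j =>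
        ⟨⟨σ (ω j), mem_algebraicClosure_iff.2 (hintE (ω j))⟩, rfl⟩
      choose z' hz' using hz'
      set v' : Idx (N + 1) d → E' := cv z' (fun q => gn (Idx (N + 1) d × J) E' (X q)) with hv'
      have hgn : ∀ q, algebraMap E' Ω (gn (Idx (N + 1) d × J) E' (X q)) =
          gn (Idx (N + 1) d × J) Ω (X q) := by
        intro q
        rw [gn, gn, RingHom.comp_apply, RingHom.comp_apply]
        exact (IsScalarTower.algebraMap_apply (EE (Idx (N + 1) d × J)) E' Ω _).symm
      have hv : (fun i => algebraMap E' Ω (v' i)) =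
          cv (fun j => σ (ω j)) fun q => gn (Idx (N + 1) d × J) Ω (X q) := by
        funext i
        simp only [hv', cv, map_sum, map_mul, hgn]
        apply Finset.sum_congr rfl
        intro j _
        congr 1
        exact hz' j
      have hP : (fun i => map (algebraMap E' Ω) (sy v' i)) =
          sy (cv (fun j => σ (ω j)) fun q => gn (Idx (N + 1) d × J) Ω (X q)) := by
        rw [map_sy, hv]
      obtain ⟨C, hC⟩ := hcnt N s b1 e1 he1
      have hxalg : ∀ i, IsAlgebraic E' (y (Sum.inl i)) := by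
        apply hfin E' Ω (N + 1) C
          (insert (X i0 - 1) (Set.range fun jk : Fin (N + 1) × Fin (N + 1) =>
            mnr (sy v') b1 e1 jk.1 jk.2))
        · intro Y hY
          have hY' : ∀ u ∈ Y, u i0 = 1 ∧ ∃ c : Ω, c ≠ 0 ∧
              (pt (sy (cv (fun j => σ (ω j)) fun q =>
                gn (Idx (N + 1) d × J) Ω (X q))))^[b1 + e1] u =
              c • (pt (sy (cv (fun j => σ (ω j)) fun q =>
                gn (Idx (N + 1) d × J) Ω (X q))))^[b1] u := by
            intro u hu
            have h2 : u i0 = 1 := by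
              have := hY u hu _ (Set.mem_insert _ _)
              rw [map_sub, aeval_X, map_one, sub_eq_zero] at this
              exact this
            have hu0 : u ≠ 0 := by
              intro h
              rw [h] at h2
              exact zero_ne_one h2
            refine ⟨h2, prop_of_minors _ _ (iter_ne_zero _ hM u hu0 _)
              (iter_ne_zero _ hM u hu0 _) fun j k => ?_⟩
            have h3 := hY u hu _ (Set.mem_insert_of_mem _ ⟨(j, k), rfl⟩)
            rw [aeval_def, eval_mnr hitr, hP] at h3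
            exact h3
          apply hC Ω d hd _ (fun i => sy_hom _ i) hM Y
          · intro u hu h
            have := (hY' u hu).1
            rw [h] at this
            exact zero_ne_one this
          · intro u hu z hz c huz
            have h1 := (hY' u hu).1
            have h2 := (hY' z hz).1
            rw [huz, Pi.smul_apply, smul_eq_mul, h2, mul_one] at h1
            rw [huz, h1, one_smul]
          · exact fun u hu => (hY' u hu).2
        · intro g hg
          rcases Set.mem_insert_iff.1 hg with rfl | ⟨jk, rfl⟩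
          · rw [map_sub, aeval_X, map_one, sub_eq_zero]
            exact hx0
          · change aeval _ (mnr (sy v') b1 e1 jk.1 jk.2) = 0
            rw [aeval_def, eval_mnr hitr, hP]
            exact hmin jk.1 jk.2
      intro t
      cases t with
      | inl i => exact (hxalg i).restrictScalars (EE (Idx (N + 1) d × J))
      | inr j =>
        have h1 := congrFun hσ j
        have h2 : y (Sum.inr j) = σ (ω j) := h1
        rw [h2]
        exact hintE _) hcon
  haveI := hfd
  have hy' : y = Sum.elim (fun i => y (Sum.inl i)) (fun j => y (Sum.inr j)) := by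
    funext t
    cases t <;> rfl
  rw [hy'] at hy hne
  obtain ⟨⟨σ, hσ⟩, h1, h2⟩ := (go_iff hitr htab ω b1 e1 i0 _ _ _).1 hy
  rw [eval_mO hitr] at hne
  rw [hσ] at h2 hne
  have hM := monIn_cv ω hcn hdiv hMac L σ
  have hx0 : (fun i => y (Sum.inl i)) ≠ 0 := by
    intro h
    have h3 : (fun i => y (Sum.inl i)) i0 = 1 := h1
    rw [h] at h3
    exact zero_ne_one h3
  obtain ⟨c, hc, h3⟩ := prop_of_minors _ _ (iter_ne_zero _ hM _ hx0 _)
    (iter_ne_zero _ hM _ hx0 _) h2
  obtain ⟨c', _, h4⟩ := hloc L hdeg σ _ hx0 ⟨b1, b1 + e1, by omega, c, hc, h3⟩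
  exact hne (minors_of_prop _ _ c' h4 j k)

end Pool.Agent.W275.UB
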