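import Pool.Agent.W275.UB.Fin6

set_option autoImplicit false

/-! Assembly of project UB, coefficients in an order: the type theorem and the final theorem. -/

namespace Pool.Agent.W275.UB

open MvPolynomial Pool.Agent.H936R2 Pool.Agent.H927R2.RD H294UB

/-- the system over `K` with coordinates `w` -/
noncomputable def sw {O J K : Type} [CommRing O] [Fintype J] [Field K] {n d : ℕ}
    (ω : Module.Basis J ℤ O) (σ : O →+* K) (w : Idx n d × J → ℤ) :
    Fin n → MvPolynomial (Fin n) K :=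
  sy (cv (fun j => σ (ω j)) fun q => (w q : K))

def S_type2 : Prop := ∀ N d D : ℕ, 2 ≤ d → ∃ b e : ℕ, 0 < e ∧
  ∀ (O J : Type) [CommRing O] [IsDomain O] [Fintype J] (ω : Module.Basis J ℤ O),
  D0 {w : Idx (N + 1) d × J → ℤ | ¬ ∀ (K : Type) [Field K] [NumberField K] (σ : O →+* K),
    Module.finrank ℚ K ≤ D → ∀ x : Fin (N + 1) → K, x ≠ 0 →
    (∃ m n : ℕ, m < n ∧ ∃ c : K, c ≠ 0 ∧
      (pt (sw ω σ w))^[n] x = c • (pt (sw ω σ w))^[m] x) →
    ∃ c : K, c ≠ 0 ∧ (pt (sw ω σ w))^[b + e] x = c • (pt (sw ω σ w))^[b] x}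

theorem typ2 (hitr : S_itr) (heul : S_eul) (htab : S_tab) (hcore : S_core) (hlmn : S_lmn2)
    (hlmg : S_lmg2) (hnorm : S_norm) (hgen : S_genT) (hfin : S_fin) (hdens : S_dens)
    (hdensp : S_densp) (hc1 : S_c1) (hc2 : S_c2) (hcnt : TaskCnt) : S_type2 := by
  classical
  intro N d D hd
  obtain ⟨c₁, s, ⟨v₀, hv₀⟩, hMac⟩ := hc1 (N + 1) d (by omega)
  have hc₁ : c₁ ≠ 0 := by
    intro h
    rw [h, map_zero] at hv₀
    exact zero_ne_one hv₀
  -- the generic point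
  obtain ⟨e0, he0, hcore0⟩ := hcore N d D 2 3 hd Nat.prime_two Nat.prime_three (by norm_num)
  obtain ⟨c₂, s₂, hc₂, hCrit⟩ := hc2 N d e0 hd he0
  obtain ⟨V₂, hV₂⟩ := hlmg D 2 (Idx (N + 1) d) c₁ c₂ Nat.prime_two ⟨v₀, hv₀⟩ hc₂
  obtain ⟨V₃, hV₃⟩ := hlmg D 3 (Idx (N + 1) d) c₁ 1 Nat.prime_three ⟨v₀, hv₀⟩ one_ne_zero
  obtain ⟨b0, hb0⟩ := hcore0 V₂
  refine ⟨b0, e0, he0, ?_⟩
  intro O J _ _ _ ω
  have hloc : ∀ (L : Type) [Field L] [Algebra (EE (Idx (N + 1) d × J)) L]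
      [FiniteDimensional (EE (Idx (N + 1) d × J)) L],
      Module.finrank (EE (Idx (N + 1) d × J)) L ≤ D → ∀ σ : O →+* L,
      ∀ x : Fin (N + 1) → L, x ≠ 0 →
      (∃ m n : ℕ, m < n ∧ ∃ c : L, c ≠ 0 ∧
        (pt (sy (cv (fun j => σ (ω j)) fun q => gn (Idx (N + 1) d × J) L (X q))))^[n] x =
          c • (pt (sy (cv (fun j => σ (ω j)) fun q => gn (Idx (N + 1) d × J) L (X q))))^[m] x) →
      ∃ c : L, c ≠ 0 ∧
        (pt (sy (cv (fun j => σ (ω j)) fun q => gn (Idx (N + 1) d × J) L (X q))))^[b0 + e0] x =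
          c • (pt (sy (cv (fun j => σ (ω j)) fun q =>
            gn (Idx (N + 1) d × J) L (X q))))^[b0] x := by
    intro L _ _ _ hL σ x hx hpre
    haveI : CharZero L :=
      charZero_of_injective_algebraMap (algebraMap (EE (Idx (N + 1) d × J)) L).injective
    exact hb0 c₁ c₂ s s₂ hMac hCrit L _ (hV₂ O J ω L hL σ) (hV₃ O J ω L hL σ).weaken x hx hpre
  intro ε hε
  obtain ⟨n₁, hn₁, hdiv₁⟩ := hnorm O J (Idx (N + 1) d) ω c₁ hc₁
  -- two large primes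
  obtain ⟨P₀, hP₀⟩ := hdensp (Idx (N + 1) d × J) n₁ hn₁ (ε / 4) (by positivity)
  obtain ⟨p, hp, hpP⟩ := exists_prime_ge P₀
  obtain ⟨q, hq, hqP⟩ := exists_prime_ge (max P₀ (p + 1))
  have hpq : p ≠ q := by
    have := (le_max_right P₀ (p + 1)).trans hqP
    omega
  obtain ⟨e1, he1, hcore1⟩ := hcore N d D p q hd hp hq hpq
  obtain ⟨c₂', s₂', hc₂', hCrit'⟩ := hc2 N d e1 hd he1
  obtain ⟨n₂, hn₂, hdiv₂⟩ := hnorm O J (Idx (N + 1) d) ω c₂' hc₂'
  obtain ⟨V1, hV1⟩ := hdens (Idx (N + 1) d × J) n₂ hn₂ p hp (ε / 4) (by positivity)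
  obtain ⟨b1, hb1⟩ := hcore1 (D * V1)
  set Z : Fin (N + 1) × Fin (N + 1) × Fin (N + 1) → Set (Idx (N + 1) d × J → ℤ) := fun t =>
    {w : Idx (N + 1) d × J → ℤ |
      ∃ (K : Type) (_ : Field K) (_ : NumberField K) (y : Fin (N + 1) ⊕ J → K),
        Module.finrank ℚ K ≤ D ∧
        (∀ g ∈ GO ω b1 e1 t.1, eval₂ ((Int.castRingHom K).comp (eval w)) y g = 0) ∧
        eval₂ ((Int.castRingHom K).comp (eval w)) y (mO (N + 1) d J b0 e0 t.2.1 t.2.2) ≠ 0}
    with hZ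
  have hZ0 : D0 (⋃ t ∈ (Finset.univ : Finset (Fin (N + 1) × Fin (N + 1) × Fin (N + 1))), Z t) :=
    D0.biUnion _ _ fun t _ => bad1 hitr htab hgen hfin hcnt hd ω c₁ n₁ hn₁ hdiv₁ hMac b0 e0 b1 e1
      he1 hloc t.1 t.2.1 t.2.2
  have htot := (((hP₀ p hp hpP).union (hP₀ q hq ((le_max_left _ _).trans hqP))).union hV1).add_D0
    hZ0 (δ := ε / 4) (by positivity)
  have hsum : ε / 4 + ε / 4 + ε / 4 + ε / 4 = ε := by ring
  rw [hsum] at htot
  apply htot.mono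
  intro w hw
  by_contra hnot
  simp only [Set.mem_union, not_or] at hnot
  obtain ⟨⟨⟨hw1, hw2⟩, hw3⟩, hw4⟩ := hnot
  apply hw
  intro K _ _ σ hK x hx hpre
  by_contra hcon
  have hlp : LM p D (D * V1) c₁ c₂' K (cv (fun j => σ (ω j)) fun q => (w q : K)) :=
    hlmn D p V1 O J (Idx (N + 1) d) ω c₁ c₂' n₁ n₂ hdiv₁ hdiv₂ K σ hK hp w hw1 hw3
  have hlq : LM q D 0 c₁ 1 K (cv (fun j => σ (ω j)) fun q => (w q : K)) := by
    refine LM.weaken (V := D * 0) (hlmn D q 0 O J (Idx (N + 1) d) ω c₁ 1 n₁ 1 hdiv₁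
      (fun R _ σ w => by rw [map_one, map_one]) K σ hK hq w hw2 ?_)
    rw [map_one, zero_add, pow_one]
    intro h
    have h1 := Int.isUnit_iff.1 (isUnit_of_dvd_one h)
    have h2 := hq.two_le
    omega
  obtain ⟨c, hc, hrel⟩ := hb1 c₁ c₂' s s₂' hMac hCrit' K _ hlp hlq x hx hpre
  have hev : ∀ q, ((Int.castRingHom K).comp (eval w)) (X q : MvPolynomial (Idx (N + 1) d × J) ℤ) =
      (w q : K) := by
    intro q
    simp
  have hsy : (sy (cv (fun j => σ (ω j)) fun q => ((Int.castRingHom K).comp (eval w))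
      (X q : MvPolynomial (Idx (N + 1) d × J) ℤ))) = sw ω σ w := by
    simp only [hev]
    rfl
  have hM : MonIn s (sw ω σ w) := by
    apply hMac
    have h1 := hdiv₁ K σ (fun q => (w q : K))
    rw [aeval_cast] at h1
    have h2 : eval w n₁ ≠ 0 := by
      intro h
      apply hw1
      change (p : ℤ) ∣ eval w n₁
      rw [h]
      exact dvd_zero _
    exact (ne_zero_of_dvd_ne_zero (Int.cast_ne_zero.2 h2) h1).isUnit
  obtain ⟨i0, hi0⟩ := Function.ne_iff.1 hx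
  have hi0' : x i0 ≠ 0 := hi0
  -- the scaled point
  set t : K := (x i0)⁻¹ with ht
  have ht0 : t ≠ 0 := inv_ne_zero hi0'
  set y : Fin (N + 1) → K := t • x with hy
  have hyit : ∀ m, (pt (sw ω σ w))^[m] y = t ^ d ^ m • (pt (sw ω σ w))^[m] x :=
    fun m => iter_smul _ (fun i => sy_hom _ i) heul t x m
  apply hw4
  -- some minor does not vanish
  have hex : ∃ j k, (pt (sw ω σ w))^[b0 + e0] y j * (pt (sw ω σ w))^[b0] y k -
      (pt (sw ω σ w))^[b0 + e0] y k * (pt (sw ω σ w))^[b0] y j ≠ 0 := by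
    by_contra hall
    push Not at hall
    apply hcon
    have h1 : ∀ j k, (pt (sw ω σ w))^[b0 + e0] x j * (pt (sw ω σ w))^[b0] x k -
        (pt (sw ω σ w))^[b0 + e0] x k * (pt (sw ω σ w))^[b0] x j = 0 := by
      intro j k
      have h2 := hall j k
      rw [hyit, hyit] at h2
      simp only [Pi.smul_apply, smul_eq_mul] at h2
      have h3 : t ^ d ^ (b0 + e0) * t ^ d ^ b0 ≠ 0 :=
        mul_ne_zero (pow_ne_zero _ ht0) (pow_ne_zero _ ht0)
      apply mul_left_cancel₀ h3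
      rw [mul_zero]
      linear_combination h2
    exact prop_of_minors _ _ (iter_ne_zero _ hM x hx _) (iter_ne_zero _ hM x hx _) h1
  obtain ⟨j, k, hjk⟩ := hex
  rw [Set.mem_iUnion₂]
  refine ⟨(i0, j, k), Finset.mem_univ _, K, inferInstance, inferInstance,
    Sum.elim y (fun j => σ (ω j)), hK, ?_, ?_⟩
  · rw [go_iff hitr htab, hsy]
    refine ⟨⟨σ, rfl⟩, ?_, ?_⟩
    · rw [hy, Pi.smul_apply, smul_eq_mul, ht]
      exact inv_mul_cancel₀ hi0'
    · apply minors_of_prop _ _ (t ^ d ^ (b1 + e1) * c / t ^ d ^ b1)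
      rw [hyit, hyit]
      have hrel' : (pt (sw ω σ w))^[b1 + e1] x = c • (pt (sw ω σ w))^[b1] x := hrel
      rw [hrel', smul_smul, smul_smul]
      congr 1
      have : t ^ d ^ b1 ≠ 0 := pow_ne_zero _ ht0
      field_simp
  · rw [eval_mO hitr, hsy]
    exact hjk

/-- uniform boundedness of the preperiodic points over all number fields of degree at most `D`, for
a system with coefficients in `O` -/
def BddO {O : Type} [CommRing O] {N : ℕ} (D C : ℕ)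
    (F : Fin (N + 1) → MvPolynomial (Fin (N + 1)) O) : Prop :=
  ∀ (K : Type) [Field K] [CharZero K] (σ : O →+* K),
    (∀ x : Fin (N + 1) → K, pt (fun i => map σ (F i)) x = 0 → x = 0) ∧
    (NumberField K → Module.finrank ℚ K ≤ D →
      ∀ X : Finset (Fin (N + 1) → K), (∀ x ∈ X, x ≠ 0) →
        (∀ x ∈ X, ∀ y ∈ X, ∀ c : K, x = c • y → x = y) →
        (∀ x ∈ X, ∃ m n : ℕ, m < n ∧ ∃ c : K, c ≠ 0 ∧
          (pt fun i => map σ (F i))^[n] x = c • (pt fun i => map σ (F i))^[m] x) → X.card ≤ C)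

theorem bddO_of_type (htype : S_type2) (hdens : S_dens) (hnorm : S_norm) (hc1 : S_c1)
    (hcnt : TaskCnt) (N d D : ℕ) (hd : 2 ≤ d) : ∃ C : ℕ,
    ∀ (O J : Type) [CommRing O] [IsDomain O] [Fintype J] (ω : Module.Basis J ℤ O),
      D0 {w : Idx (N + 1) d × J → ℤ | ¬ BddO D C (sy (cv ω fun q => (w q : O)))} := by
  obtain ⟨c₁, s, ⟨v₀, hv₀⟩, hMac⟩ := hc1 (N + 1) d (by omega)
  have hc₁ : c₁ ≠ 0 := by
    intro h
    rw [h, map_zero] at hv₀
    exact zero_ne_one hv₀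
  obtain ⟨b, e, he, hbe⟩ := htype N d D hd
  obtain ⟨C, hC⟩ := hcnt N s b e he
  refine ⟨C, ?_⟩
  intro O J _ _ _ ω
  obtain ⟨n₁, hn₁, hdiv₁⟩ := hnorm O J (Idx (N + 1) d) ω c₁ hc₁
  have h1 := D0.union (S := {w : Idx (N + 1) d × J → ℤ | eval w n₁ = 0}) (D0_zero hdens n₁ hn₁)
    (hbe O J ω)
  intro ε hε
  apply (h1 ε hε).mono
  intro w hw
  by_contra hnot
  simp only [Set.mem_union, not_or] at hnot
  obtain ⟨hw1, hw2⟩ := hnot
  have hw1' : eval w n₁ ≠ 0 := hw1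
  have hw2' := not_not.1 hw2
  have hsy : ∀ (K : Type) [Field K] (σ : O →+* K),
      (fun i => map σ (sy (cv ω fun q => (w q : O)) i)) = sw ω σ w := by
    intro K _ σ
    rw [map_sy, sw]
    congr 1
    funext i
    simp [cv]
  have hMon : ∀ (K : Type) [Field K] [CharZero K] (σ : O →+* K), MonIn s (sw ω σ w) := by
    intro K _ _ σ
    apply hMac
    have h1 := hdiv₁ K σ (fun q => (w q : K))
    rw [aeval_cast] at h1
    exact (ne_zero_of_dvd_ne_zero (Int.cast_ne_zero.2 hw1') h1).isUnit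
  apply hw
  intro K _ _ σ
  refine ⟨?_, ?_⟩
  · intro x hx
    rw [hsy] at hx
    exact no_zero _ (hMon K σ) x fun i => congrFun hx i
  · intro hNF hK X hX0 hXp hX
    haveI := hNF
    apply hC K d hd (sw ω σ w) (fun i => sy_hom _ i) (hMon K σ) X hX0 hXp
    intro x hx
    have h2 := hX x hx
    rw [hsy] at h2
    exact hw2' K σ hK x (hX0 x hx) h2

end Pool.Agent.W275.UB
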